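import Pool.Agent.H857.TF.Core
import Pool.Agent.H857.PD.Asm

/-!
# Abelian threefolds with exotic Tate classes: assembly
-/

set_option autoImplicit false

namespace Pool.Agent.H857.TF

open Module Polynomial Pool.Agent.W521.Descent Pool.Agent.W521.Density Pool.Agent.W521.Count
  Pool.Agent.X297.UB Pool.Agent.H857.PB Pool.Agent.H857.PA Pool.Agent.H857.HK Pool.Agent.H857.EF
  Pool.Agent.H857.WT Pool.Agent.H857.SG Pool.Agent.H857.PD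

/-- The nonresidues. -/
def SN (t : ℤ) (p : ℕ) : Set (ℤ × ℤ) :=
  {x | Reg t x.1 x.2 ∧ ∀ w : ZMod p, w ^ 2 ≠ (x.1 : ZMod p) ^ 2 - 4 * (x.2 : ZMod p)}

/-- The zeros of the discriminant. -/
def SZ (t : ℤ) (p : ℕ) : Set (ℤ × ℤ) :=
  {x | Reg t x.1 x.2 ∧ (x.1 : ZMod p) ^ 2 - 4 * (x.2 : ZMod p) = 0}

/-- The `n` divisible by `p`. -/
def SP (t : ℤ) (p : ℕ) : Set (ℤ × ℤ) := {x | Reg t x.1 x.2 ∧ (x.2 : ZMod p) = 0}

/-- The reducible ones. -/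
def SR (t : ℤ) : Set (ℤ × ℤ) := {x | Reg t x.1 x.2 ∧ ∃ b, Rt t x.1 x.2 b}

lemma reg_neg {t A n : ℤ} : Reg (-t) A n ↔ Reg t (-A) n := by
  unfold Reg
  have e1 : (-A) ^ 2 = A ^ 2 := by ring
  have e2 : n + 6 * -A * t + 9 * t ^ 2 = n + 6 * A * -t + 9 * (-t) ^ 2 := by ring
  have e3 : 4 * t * (-A + 3 * t) ^ 3 = 4 * -t * (A + 3 * -t) ^ 3 := by ring
  rw [e1, e2, e3]

/-- The involution. -/
def nu (x : ℤ × ℤ) : ℤ × ℤ := (-x.1, x.2)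

lemma nu_inj : Function.Injective nu := by
  intro x y h
  simp only [nu, Prod.mk.injEq, neg_inj] at h
  exact Prod.ext h.1 h.2

lemma nu_nu (x : ℤ × ℤ) : nu (nu x) = x := by
  simp [nu]

lemma sn_neg (t : ℤ) (p : ℕ) : SN (-t) p = nu '' SN t p := by
  ext x
  constructor
  · rintro ⟨h1, h2⟩
    refine ⟨nu x, ⟨?_, ?_⟩, nu_nu x⟩
    · exact reg_neg.1 h1
    · intro w hw
      apply h2 w
      rw [hw]
      simp [nu]
  · rintro ⟨y, ⟨h1, h2⟩, rfl⟩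
    refine ⟨?_, ?_⟩
    · rw [reg_neg]
      simpa [nu] using h1
    · intro w hw
      apply h2 w
      rw [hw]
      simp [nu]

lemma sz_neg (t : ℤ) (p : ℕ) : SZ (-t) p = nu '' SZ t p := by
  ext x
  constructor
  · rintro ⟨h1, h2⟩
    refine ⟨nu x, ⟨?_, ?_⟩, nu_nu x⟩
    · exact reg_neg.1 h1
    · rw [← h2]
      simp [nu]
  · rintro ⟨y, ⟨h1, h2⟩, rfl⟩
    refine ⟨?_, ?_⟩
    · rw [reg_neg]
      simpa [nu] using h1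
    · rw [← h2]
      simp [nu]

lemma sp_neg (t : ℤ) (p : ℕ) : SP (-t) p = nu '' SP t p := by
  ext x
  constructor
  · rintro ⟨h1, h2⟩
    exact ⟨nu x, ⟨reg_neg.1 h1, h2⟩, nu_nu x⟩
  · rintro ⟨y, ⟨h1, h2⟩, rfl⟩
    refine ⟨?_, h2⟩
    rw [reg_neg]
    simpa [nu] using h1

lemma F_inj {t A n A' n' : ℤ} (h : F t A n = F t A' n') : A = A' ∧ n = n' := by
  have c5 : ∀ t A n : ℤ, (F t A n).coeff 5 = A := by
    intro t A n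
    simp only [F, coeff_add, coeff_C_mul, coeff_X_pow, coeff_C, coeff_X]
    norm_num
  have c4 : ∀ t A n : ℤ, (F t A n).coeff 4 = n + t * A := by
    intro t A n
    simp only [F, coeff_add, coeff_C_mul, coeff_X_pow, coeff_C, coeff_X]
    norm_num
  have h5 := congrArg (fun f => f.coeff 5) h
  have h4 := congrArg (fun f => f.coeff 4) h
  simp only [c5, c4] at h5 h4
  refine ⟨h5, ?_⟩
  subst h5
  linarith

lemma F_inj' (t : ℤ) : Function.Injective (fun x : ℤ × ℤ => F t x.1 x.2) := by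
  intro x y h
  obtain ⟨h1, h2⟩ := F_inj h
  exact Prod.ext h1 h2

/-- The counts of the parameters. -/
theorem counts (h2 : T2) (h3 : T3) : ∃ C : ℝ, 0 < C ∧ ∀ (p : ℕ) [Fact p.Prime] (b : ℕ), 0 < b →
    p ≠ 2 → ∀ t : ℤ, (t = (p : ℤ) ^ b ∨ t = -(p : ℤ) ^ b) →
    ((SN t p).Finite ∧ (SZ t p).Finite ∧ (SP t p).Finite) ∧
    |((SN t p).ncard : ℝ) - 64 / 15 * ((p : ℝ) ^ b) ^ 3| ≤ C * (((p : ℝ) ^ b) ^ 3 / p) ∧
    ((SZ t p).ncard : ℝ) ≤ C * (((p : ℝ) ^ b) ^ 3 / p) ∧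
    ((SP t p).ncard : ℝ) ≤ C * (((p : ℝ) ^ b) ^ 3 / p) := by
  obtain ⟨C, hC, h⟩ := h2
  refine ⟨C + 128 / 15, by positivity, fun p _ b hb hp2 => ?_⟩
  have hp : p.Prime := Fact.out
  have hs : 0 < p ^ b := pow_pos hp.pos b
  have hps : p ≤ p ^ b := Nat.le_self_pow hb.ne' p
  have hpR : (0 : ℝ) < p := by exact_mod_cast hp.pos
  have hsR : (0 : ℝ) < (p : ℝ) ^ b := by positivity
  have hpsR : (p : ℝ) ≤ (p : ℝ) ^ b := by exact_mod_cast hps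
  have hs2 : ((p : ℝ) ^ b) ^ 2 ≤ ((p : ℝ) ^ b) ^ 3 / p := by
    rw [le_div_iff₀ hpR, pow_succ _ 2]
    exact mul_le_mul_of_nonneg_left hpsR (by positivity)
  have hcastN : ((p ^ b : ℕ) : ℝ) = (p : ℝ) ^ b := by push_cast; rfl
  have hcastZ : ((p ^ b : ℕ) : ℤ) = (p : ℤ) ^ b := by push_cast; rfl
  obtain ⟨f1, c1⟩ := h (p ^ b) p hs hp.pos hps
    (fun A => {n : ZMod p | ∀ w : ZMod p, w ^ 2 ≠ (A : ZMod p) ^ 2 - 4 * n}) ((p - 1) / 2)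
    (fun A => (h3 p hp2 A).1)
  obtain ⟨f2, c2⟩ := h (p ^ b) p hs hp.pos hps
    (fun A => {n : ZMod p | (A : ZMod p) ^ 2 - 4 * n = 0}) 1 (fun A => (h3 p hp2 A).2)
  obtain ⟨f3, c3⟩ := h (p ^ b) p hs hp.pos hps
    (fun _ => {n : ZMod p | n = 0}) 1 (fun A => by
      have : {n : ZMod p | n = 0} = {0} := by ext; simp
      rw [this, Set.ncard_singleton])
  rw [hcastZ] at f1 c1 f2 c2 f3 c3
  rw [hcastN] at c1 c2 c3
  have e1 : {x : ℤ × ℤ | Reg ((p : ℤ) ^ b) x.1 x.2 ∧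
      (x.2 : ZMod p) ∈ {n : ZMod p | ∀ w : ZMod p, w ^ 2 ≠ (x.1 : ZMod p) ^ 2 - 4 * n}} =
      SN ((p : ℤ) ^ b) p := rfl
  have e2 : {x : ℤ × ℤ | Reg ((p : ℤ) ^ b) x.1 x.2 ∧
      (x.2 : ZMod p) ∈ {n : ZMod p | (x.1 : ZMod p) ^ 2 - 4 * n = 0}} =
      SZ ((p : ℤ) ^ b) p := rfl
  have e3 : {x : ℤ × ℤ | Reg ((p : ℤ) ^ b) x.1 x.2 ∧
      (x.2 : ZMod p) ∈ {n : ZMod p | n = 0}} = SP ((p : ℤ) ^ b) p := rfl
  rw [e1] at f1 c1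
  rw [e2] at f2 c2
  rw [e3] at f3 c3
  have hhalf : (((p - 1) / 2 : ℕ) : ℝ) = ((p : ℝ) - 1) / 2 := by
    obtain ⟨k, hk⟩ := hp.odd_of_ne_two hp2
    rw [hk]
    have : (2 * k + 1 - 1) / 2 = k := by omega
    rw [this]
    push_cast
    ring
  rw [hhalf] at c1
  set s : ℝ := (p : ℝ) ^ b with hsdef
  have main1 : |((SN ((p : ℤ) ^ b) p).ncard : ℝ) - 64 / 15 * s ^ 3| ≤
      (C + 128 / 15) * (s ^ 3 / p) := by
    have e4 : 128 / 15 * (((p : ℝ) - 1) / 2 / p) * s ^ 3 =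
        64 / 15 * s ^ 3 - 64 / 15 * (s ^ 3 / p) := by
      field_simp
      ring
    rw [e4] at c1
    have h5 : 0 ≤ s ^ 3 / p := by positivity
    rw [abs_le] at c1 ⊢
    constructor
    · nlinarith [mul_le_mul_of_nonneg_left hs2 hC.le]
    · nlinarith [mul_le_mul_of_nonneg_left hs2 hC.le]
  have main2 : ∀ N : ℝ, |N - 128 / 15 * (((1 : ℕ) : ℝ) / p) * s ^ 3| ≤ C * s ^ 2 →
      N ≤ (C + 128 / 15) * (s ^ 3 / p) := by
    intro N hN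
    have e4 : 128 / 15 * (((1 : ℕ) : ℝ) / p) * s ^ 3 = 128 / 15 * (s ^ 3 / p) := by
      push_cast
      field_simp
    rw [e4] at hN
    have := (abs_le.1 hN).2
    nlinarith [mul_le_mul_of_nonneg_left hs2 hC.le]
  have m2 := main2 _ c2
  have m3 := main2 _ c3
  rintro t (rfl | rfl)
  · exact ⟨⟨f1, f2, f3⟩, main1, m2, m3⟩
  · rw [sn_neg, sz_neg, sp_neg, Set.ncard_image_of_injective _ nu_inj,
      Set.ncard_image_of_injective _ nu_inj, Set.ncard_image_of_injective _ nu_inj]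
    exact ⟨⟨f1.image _, f2.image _, f3.image _⟩, main1, m2, m3⟩

/-- The isogeny classes of the theorem. -/
def Ex (p : ℕ) [Fact p.Prime] (b : ℕ) : Set ℤ[X] :=
  {f ∈ newtonWeil p (2 * b) 3 | Irreducible f ∧ HondaTate p (2 * b) f ∧
    HasExotic (p ^ (2 * b)) f}

/-- The upper bound. -/
theorem upperT (hst : ∀ {q : ℕ}, 1 < q → ∀ {f : ℤ[X]}, f ∈ weilPolys q 3 → Irreducible f →
      HasExotic q f → OfOddWeilType q 3 f)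
    (h1 : T1) (h4a : T4a) (h4b : T4b) (h8 : T8)
    (hc : ∃ C : ℝ, 0 < C ∧ ∀ (p : ℕ) [Fact p.Prime] (b : ℕ), 0 < b →
      p ≠ 2 → ∀ t : ℤ, (t = (p : ℤ) ^ b ∨ t = -(p : ℤ) ^ b) →
      ((SN t p).Finite ∧ (SZ t p).Finite ∧ (SP t p).Finite) ∧
      |((SN t p).ncard : ℝ) - 64 / 15 * ((p : ℝ) ^ b) ^ 3| ≤ C * (((p : ℝ) ^ b) ^ 3 / p) ∧
      ((SZ t p).ncard : ℝ) ≤ C * (((p : ℝ) ^ b) ^ 3 / p) ∧
      ((SP t p).ncard : ℝ) ≤ C * (((p : ℝ) ^ b) ^ 3 / p)) :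
    ∃ C : ℝ, 0 < C ∧ ∀ (p : ℕ) [Fact p.Prime] (b : ℕ), 0 < b → p ≠ 2 →
      ((Ex p b).ncard : ℝ) ≤ 128 / 15 * ((p : ℝ) ^ b) ^ 3 + C * (((p : ℝ) ^ b) ^ 3 / p) := by
  obtain ⟨C, hC, h⟩ := hc
  obtain ⟨C', hC', h4⟩ := h4a
  refine ⟨C' + 4 * C, by positivity, fun p _ b hb hp2 => ?_⟩
  have hp : p.Prime := Fact.out
  have hs : 0 < p ^ b := pow_pos hp.pos b
  have hps : p ≤ p ^ b := Nat.le_self_pow hb.ne' p
  have hsq : (p ^ b) ^ 2 = p ^ (2 * b) := by rw [← pow_mul, mul_comm]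
  have hq1 : 1 < p ^ (2 * b) := Nat.one_lt_pow (by omega) hp.one_lt
  have hpR : (0 : ℝ) < p := by exact_mod_cast hp.pos
  have hpsR : (p : ℝ) ≤ (p : ℝ) ^ b := by exact_mod_cast hps
  have hs2 : ((p : ℝ) ^ b) ^ 2 ≤ ((p : ℝ) ^ b) ^ 3 / p := by
    rw [le_div_iff₀ hpR, pow_succ _ 2]
    exact mul_le_mul_of_nonneg_left hpsR (by positivity)
  obtain ⟨hfinO, hO⟩ := h4 (p ^ (2 * b)) (by positivity)
  obtain ⟨⟨a1, a2, -⟩, a4, a5, -⟩ := h p b hb hp2 ((p : ℤ) ^ b) (Or.inl rfl)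
  obtain ⟨⟨b1, b2, -⟩, b4, b5, -⟩ := h p b hb hp2 (-(p : ℤ) ^ b) (Or.inr rfl)
  set T : ℤ → Set ℤ[X] := fun t => (fun x : ℤ × ℤ => F t x.1 x.2) '' (SN t p ∪ SZ t p) with hT
  have hsub : Ex p b ⊆ {f ∈ weilPolys (p ^ (2 * b)) 3 | OddNR (p ^ (2 * b)) f} ∪
      (T ((p : ℤ) ^ b) ∪ T (-(p : ℤ) ^ b)) := by
    rintro f ⟨hf, hirr, hHT, hex⟩
    have hw := hst hq1 hf.1 hirr hex
    by_cases hO : OddNR (p ^ (2 * b)) f
    · exact Or.inl ⟨hf.1, hO⟩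
    · right
      have hf1 := hf.1
      rw [← hsq] at hf1 hw hO
      obtain ⟨t, A, n, ht, hAn, rfl⟩ := h4b (p ^ b) f hs hf1 hw hO
      have hR : Reg t A n := (h1 (p ^ b) t A n hs ht hAn).1 hf1
      have ht' : t = (p : ℤ) ^ b ∨ t = -(p : ℤ) ^ b := by
        rcases ht with h | h
        · left; rw [h]; push_cast; rfl
        · right; rw [h]; push_cast; rfl
      have h9 := h8 p b t A n hp2 hb ht' hHT
      have hmem : (A, n) ∈ SN t p ∪ SZ t p := by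
        rcases h9 with h9 | h9
        · exact Or.inl ⟨hR, h9⟩
        · exact Or.inr ⟨hR, h9⟩
      rcases ht' with rfl | rfl
      · exact Or.inl ⟨(A, n), hmem, rfl⟩
      · exact Or.inr ⟨(A, n), hmem, rfl⟩
  have hT1 : (T ((p : ℤ) ^ b)).Finite := (a1.union a2).image _
  have hT2 : (T (-(p : ℤ) ^ b)).Finite := (b1.union b2).image _
  have hcard : (Ex p b).ncard ≤
      {f ∈ weilPolys (p ^ (2 * b)) 3 | OddNR (p ^ (2 * b)) f}.ncard +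
      (((SN ((p : ℤ) ^ b) p).ncard + (SZ ((p : ℤ) ^ b) p).ncard) +
        ((SN (-(p : ℤ) ^ b) p).ncard + (SZ (-(p : ℤ) ^ b) p).ncard)) := by
    refine (Set.ncard_le_ncard hsub (hfinO.union (hT1.union hT2))).trans ?_
    refine (Set.ncard_union_le _ _).trans (Nat.add_le_add_left ?_ _)
    refine (Set.ncard_union_le _ _).trans (Nat.add_le_add ?_ ?_)
    · exact (Set.ncard_image_le (a1.union a2)).trans (Set.ncard_union_le _ _)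
    · exact (Set.ncard_image_le (b1.union b2)).trans (Set.ncard_union_le _ _)
  have hcardR : ((Ex p b).ncard : ℝ) ≤
      ({f ∈ weilPolys (p ^ (2 * b)) 3 | OddNR (p ^ (2 * b)) f}.ncard : ℝ) +
      ((((SN ((p : ℤ) ^ b) p).ncard : ℝ) + ((SZ ((p : ℤ) ^ b) p).ncard : ℝ)) +
        (((SN (-(p : ℤ) ^ b) p).ncard : ℝ) + ((SZ (-(p : ℤ) ^ b) p).ncard : ℝ))) := by
    exact_mod_cast hcard
  have hO' : ({f ∈ weilPolys (p ^ (2 * b)) 3 | OddNR (p ^ (2 * b)) f}.ncard : ℝ) ≤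
      C' * (((p : ℝ) ^ b) ^ 3 / p) := by
    refine hO.trans (mul_le_mul_of_nonneg_left ?_ hC'.le)
    refine le_trans (le_of_eq ?_) hs2
    push_cast
    ring
  have c1 := (abs_le.1 a4).2
  have c2 := (abs_le.1 b4).2
  linarith

/-- The lower bound. -/
theorem lowerT (h1 : T1) (h5 : T5) (h6 : T6) (h7 : T7) (h9 : T9) (h10 : T10) (s18 : S18)
    (hc : ∃ C : ℝ, 0 < C ∧ ∀ (p : ℕ) [Fact p.Prime] (b : ℕ), 0 < b →
      p ≠ 2 → ∀ t : ℤ, (t = (p : ℤ) ^ b ∨ t = -(p : ℤ) ^ b) →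
      ((SN t p).Finite ∧ (SZ t p).Finite ∧ (SP t p).Finite) ∧
      |((SN t p).ncard : ℝ) - 64 / 15 * ((p : ℝ) ^ b) ^ 3| ≤ C * (((p : ℝ) ^ b) ^ 3 / p) ∧
      ((SZ t p).ncard : ℝ) ≤ C * (((p : ℝ) ^ b) ^ 3 / p) ∧
      ((SP t p).ncard : ℝ) ≤ C * (((p : ℝ) ^ b) ^ 3 / p)) :
    ∃ C : ℝ, 0 < C ∧ ∀ (p : ℕ) [Fact p.Prime] (b : ℕ), 0 < b → p ≠ 2 →
      128 / 15 * ((p : ℝ) ^ b) ^ 3 - C * (((p : ℝ) ^ b) ^ 3 / p) ≤ ((Ex p b).ncard : ℝ) := by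
  classical
  obtain ⟨C, hC, h⟩ := hc
  obtain ⟨C₉, hC₉, h9⟩ := h9
  obtain ⟨C₁, hC₁, h10⟩ := h10
  refine ⟨C₉ + 2 * C₁ + 4 * C, by positivity, fun p _ b hb hp2 => ?_⟩
  have hp : p.Prime := Fact.out
  have hs : 0 < p ^ b := pow_pos hp.pos b
  have hs1 : 1 < p ^ b := Nat.one_lt_pow hb.ne' hp.one_lt
  have hps : p ≤ p ^ b := Nat.le_self_pow hb.ne' p
  have hsq : (p ^ b) ^ 2 = p ^ (2 * b) := by rw [← pow_mul, mul_comm]
  have hq1 : 1 < p ^ (2 * b) := Nat.one_lt_pow (by omega) hp.one_lt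
  have hpR : (0 : ℝ) < p := by exact_mod_cast hp.pos
  have hpsR : (p : ℝ) ≤ (p : ℝ) ^ b := by exact_mod_cast hps
  have hs2 : ((p : ℝ) ^ b) ^ 2 ≤ ((p : ℝ) ^ b) ^ 3 / p := by
    rw [le_div_iff₀ hpR, pow_succ _ 2]
    exact mul_le_mul_of_nonneg_left hpsR (by positivity)
  have hcastN : ((p ^ b : ℕ) : ℝ) = (p : ℝ) ^ b := by push_cast; rfl
  have hcastZ : ((p ^ b : ℕ) : ℤ) = (p : ℤ) ^ b := by push_cast; rfl
  obtain ⟨⟨a1, -, a3⟩, a4, -, a6⟩ := h p b hb hp2 ((p : ℤ) ^ b) (Or.inl rfl)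
  obtain ⟨⟨b1, -, b3⟩, b4, -, b6⟩ := h p b hb hp2 (-(p : ℤ) ^ b) (Or.inr rfl)
  obtain ⟨f9, c9⟩ := h9 (p ^ b) hs
  obtain ⟨f10, c10⟩ := h10 (p ^ b) ((p : ℤ) ^ b) hs (Or.inl hcastZ.symm)
  obtain ⟨f11, c11⟩ := h10 (p ^ b) (-(p : ℤ) ^ b) hs (Or.inr (by rw [hcastZ]))
  rw [hcastN] at c9 c10 c11
  rw [hcastZ] at f9 c9
  change (SR ((p : ℤ) ^ b)).Finite at f10
  change (SR (-(p : ℤ) ^ b)).Finite at f11
  change ((SR ((p : ℤ) ^ b)).ncard : ℝ) ≤ _ at c10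
  change ((SR (-(p : ℤ) ^ b)).ncard : ℝ) ≤ _ at c11
  set G : ℤ → Set (ℤ × ℤ) := fun t => SN t p \ (SP t p ∪ SR t) with hG
  set T : ℤ → Set ℤ[X] := fun t => (fun x : ℤ × ℤ => F t x.1 x.2) '' G t with hT
  have hGcard : ∀ t : ℤ, (SN t p).Finite → (SP t p).Finite → (SR t).Finite →
      ((SN t p).ncard : ℝ) ≤ ((G t).ncard : ℝ) + ((SP t p).ncard : ℝ) + ((SR t).ncard : ℝ) := by
    intro t k1 k2 k3
    have h1 : SN t p ⊆ G t ∪ (SP t p ∪ SR t) := by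
      intro x hx
      by_cases h : x ∈ SP t p ∪ SR t
      · exact Or.inr h
      · exact Or.inl ⟨hx, h⟩
    have h2 := (Set.ncard_le_ncard h1 ((k1.subset Set.sdiff_subset).union (k2.union k3))).trans
      ((Set.ncard_union_le _ _).trans (Nat.add_le_add_left (Set.ncard_union_le _ _) _))
    have h3 : ((SN t p).ncard : ℝ) ≤ ((G t).ncard : ℝ) +
      (((SP t p).ncard : ℝ) + ((SR t).ncard : ℝ)) := by exact_mod_cast h2
    linarith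
  have hTE : ∀ t : ℤ, (t = (p : ℤ) ^ b ∨ t = -(p : ℤ) ^ b) → T t ⊆ Ex p b := by
    rintro t ht f ⟨⟨A, n⟩, ⟨⟨hR, hN⟩, hno⟩, rfl⟩
    simp only at hR hN
    have hpn : ¬ (p : ℤ) ∣ n := by
      intro hd
      apply hno
      left
      exact ⟨hR, (ZMod.intCast_zmod_eq_zero_iff_dvd n p).2 hd⟩
    have hrt : ∀ b', ¬ Rt t A n b' := by
      intro b' hb'
      apply hno
      right
      exact ⟨hR, b', hb'⟩
    have ht' : t = ((p ^ b : ℕ) : ℤ) ∨ t = -((p ^ b : ℕ) : ℤ) := by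
      rw [hcastZ]
      exact ht
    obtain ⟨hnw, hz⟩ := h5 p b t A n hb ht hR hpn
    have hw : F t A n ∈ weilPolys ((p ^ b) ^ 2) 3 := (h1 (p ^ b) t A n hs ht' hR.1).2 hR
    rw [← hsq] at hz
    obtain ⟨hirr, hexl⟩ := h6 (p ^ b) t A n hs1 ht' hR.1 hw hrt hz
    rw [hsq] at hexl
    exact ⟨hnw, hirr, h7 p b t A n hp2 hb ht hR hpn hN hirr,
      s18 (p ^ (2 * b)) hq1 _ hnw.1.2.2.2 hexl⟩
  have hEfin : (Ex p b).Finite := newtonWeil_finite.subset fun f hf => hf.1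
  have hT1fin : (T ((p : ℤ) ^ b)).Finite := (a1.subset Set.sdiff_subset).image _
  have hT2fin : (T (-(p : ℤ) ^ b)).Finite := (b1.subset Set.sdiff_subset).image _
  have hT1card : (T ((p : ℤ) ^ b)).ncard = (G ((p : ℤ) ^ b)).ncard :=
    Set.ncard_image_of_injective _ (F_inj' _)
  have hT2card : (T (-(p : ℤ) ^ b)).ncard = (G (-(p : ℤ) ^ b)).ncard :=
    Set.ncard_image_of_injective _ (F_inj' _)
  have hinter : (T ((p : ℤ) ^ b) ∩ T (-(p : ℤ) ^ b)).ncard ≤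
      {x : ℤ × ℤ | Reg ((p : ℤ) ^ b) x.1 x.2 ∧
        ∃ A n : ℤ, F ((p : ℤ) ^ b) x.1 x.2 = F (-(p : ℤ) ^ b) A n}.ncard := by
    have hsub : T ((p : ℤ) ^ b) ∩ T (-(p : ℤ) ^ b) ⊆ (fun x : ℤ × ℤ => F ((p : ℤ) ^ b) x.1 x.2) ''
        {x : ℤ × ℤ | Reg ((p : ℤ) ^ b) x.1 x.2 ∧
          ∃ A n : ℤ, F ((p : ℤ) ^ b) x.1 x.2 = F (-(p : ℤ) ^ b) A n} := by
      rintro f ⟨⟨x, hx, rfl⟩, ⟨y, -, hxy⟩⟩
      exact ⟨x, ⟨hx.1.1, y.1, y.2, hxy.symm⟩, rfl⟩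
    exact (Set.ncard_le_ncard hsub (f9.image _)).trans (Set.ncard_image_le f9)
  have hunion : (T ((p : ℤ) ^ b) ∪ T (-(p : ℤ) ^ b)).ncard ≤ (Ex p b).ncard :=
    Set.ncard_le_ncard (Set.union_subset (hTE _ (Or.inl rfl)) (hTE _ (Or.inr rfl))) hEfin
  have hadd := Set.ncard_union_add_ncard_inter (T ((p : ℤ) ^ b)) (T (-(p : ℤ) ^ b)) hT1fin hT2fin
  have hfinal : (G ((p : ℤ) ^ b)).ncard + (G (-(p : ℤ) ^ b)).ncard ≤ (Ex p b).ncard +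
      {x : ℤ × ℤ | Reg ((p : ℤ) ^ b) x.1 x.2 ∧
        ∃ A n : ℤ, F ((p : ℤ) ^ b) x.1 x.2 = F (-(p : ℤ) ^ b) A n}.ncard := by
    omega
  have hfinalR : ((G ((p : ℤ) ^ b)).ncard : ℝ) + ((G (-(p : ℤ) ^ b)).ncard : ℝ) ≤
      ((Ex p b).ncard : ℝ) + ({x : ℤ × ℤ | Reg ((p : ℤ) ^ b) x.1 x.2 ∧
        ∃ A n : ℤ, F ((p : ℤ) ^ b) x.1 x.2 = F (-(p : ℤ) ^ b) A n}.ncard : ℝ) := by
    exact_mod_cast hfinal
  have g1 := hGcard _ a1 a3 f10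
  have g2 := hGcard _ b1 b3 f11
  have c1 := (abs_le.1 a4).1
  have c2 := (abs_le.1 b4).1
  have d1 := mul_le_mul_of_nonneg_left hs2 hC₉.le
  have d2 := mul_le_mul_of_nonneg_left hs2 hC₁.le
  linarith

end Pool.Agent.H857.TF
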