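import Pool.Agent.H857.TF.Core2
import Pool.Agent.H857.TF.Asm

/-!
# Abelian threefolds with exotic Tate classes: the exact main term
-/

set_option autoImplicit false

namespace Pool.Agent.H857.TF

open Module Polynomial Pool.Agent.W521.Descent Pool.Agent.W521.Density Pool.Agent.W521.Count
  Pool.Agent.X297.UB Pool.Agent.H857.PB Pool.Agent.H857.PA Pool.Agent.H857.HK Pool.Agent.H857.EF
  Pool.Agent.H857.WT Pool.Agent.H857.SG Pool.Agent.H857.PD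

/-- The good parameters. -/
def SG' (t : ℤ) (p : ℕ) [Fact p.Prime] : Set (ℤ × ℤ) :=
  {x | Reg t x.1 x.2 ∧ ¬ (p : ℤ) ∣ x.2 ∧ NonSq p (x.1 ^ 2 - 4 * x.2)}

/-- The divisible ones. -/
def SD (t : ℤ) (s : ℕ) : Set (ℤ × ℤ) := {x | Reg t x.1 x.2 ∧ (s : ℤ) ^ 2 ∣ x.2}

lemma sg'_neg (t : ℤ) (p : ℕ) [Fact p.Prime] : SG' (-t) p = nu '' SG' t p := by
  ext x
  constructor
  · rintro ⟨h1, h2, h3⟩
    refine ⟨nu x, ⟨reg_neg.1 h1, h2, ?_⟩, nu_nu x⟩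
    change NonSq p ((-x.1) ^ 2 - 4 * x.2)
    rw [neg_sq]
    exact h3
  · rintro ⟨y, ⟨h1, h2, h3⟩, rfl⟩
    refine ⟨?_, h2, ?_⟩
    · rw [reg_neg]
      simpa [nu] using h1
    · change NonSq p ((-y.1) ^ 2 - 4 * y.2)
      rw [neg_sq]
      exact h3

/-- The counts of the good parameters, both signs. -/
lemma good_counts (h5 : U5) : ∃ C : ℝ, 0 < C ∧ ∀ (p : ℕ) [Fact p.Prime] (b : ℕ), 0 < b →
    ∀ t : ℤ, (t = (p : ℤ) ^ b ∨ t = -(p : ℤ) ^ b) → (SG' t p).Finite ∧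
      |((SG' t p).ncard : ℝ) - 128 / 15 * kbar p * ((p : ℝ) ^ b) ^ 3| ≤
        C * ((p : ℝ) ^ b) ^ 2 := by
  obtain ⟨C, hC, h⟩ := h5
  refine ⟨C, hC, fun p _ b hb t ht => ?_⟩
  obtain ⟨f, c⟩ := h p b hb
  rcases ht with rfl | rfl
  · exact ⟨f, c⟩
  · rw [sg'_neg, Set.ncard_image_of_injective _ nu_inj]
    exact ⟨Set.Finite.image _ f, c⟩

/-- The upper bound. -/
theorem upper2 (hst : ∀ {q : ℕ}, 1 < q → ∀ {f : ℤ[X]}, f ∈ weilPolys q 3 → Irreducible f →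
      HasExotic q f → OfOddWeilType q 3 f)
    (h1 : T1) (h4a : T4a) (h4b : T4b) (h7 : U7) (h8 : U8) (h9 : U9) (h5 : U5) :
    ∃ C : ℝ, 0 < C ∧ ∀ (p : ℕ) [Fact p.Prime] (b : ℕ), 0 < b →
      ((Ex p b).ncard : ℝ) ≤ 128 / 15 * (2 * kbar p) * ((p : ℝ) ^ b) ^ 3 +
        C * ((p : ℝ) ^ b) ^ 2 := by
  obtain ⟨C, hC, h⟩ := good_counts h5
  obtain ⟨C', hC', h4⟩ := h4a
  obtain ⟨C₉, hC₉, h9⟩ := h9
  refine ⟨C' + 2 * C₉ + 2 * C, by positivity, fun p _ b hb => ?_⟩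
  have hp : p.Prime := Fact.out
  have hs : 0 < p ^ b := pow_pos hp.pos b
  have hsq : (p ^ b) ^ 2 = p ^ (2 * b) := by rw [← pow_mul, mul_comm]
  have hq1 : 1 < p ^ (2 * b) := Nat.one_lt_pow (by omega) hp.one_lt
  have hcastN : ((p ^ b : ℕ) : ℝ) = (p : ℝ) ^ b := by push_cast; rfl
  have hcastZ : ((p ^ b : ℕ) : ℤ) = (p : ℤ) ^ b := by push_cast; rfl
  obtain ⟨hfinO, hO⟩ := h4 (p ^ (2 * b)) (by positivity)
  obtain ⟨a1, a2⟩ := h p b hb ((p : ℤ) ^ b) (Or.inl rfl)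
  obtain ⟨b1, b2⟩ := h p b hb (-(p : ℤ) ^ b) (Or.inr rfl)
  obtain ⟨d1, d2⟩ := h9 (p ^ b) ((p : ℤ) ^ b) hs (Or.inl hcastZ.symm)
  obtain ⟨e1, e2⟩ := h9 (p ^ b) (-(p : ℤ) ^ b) hs (Or.inr (by rw [hcastZ]))
  rw [hcastN] at d2 e2
  change (SD ((p : ℤ) ^ b) (p ^ b)).Finite at d1
  change (SD (-(p : ℤ) ^ b) (p ^ b)).Finite at e1
  change ((SD ((p : ℤ) ^ b) (p ^ b)).ncard : ℝ) ≤ _ at d2
  change ((SD (-(p : ℤ) ^ b) (p ^ b)).ncard : ℝ) ≤ _ at e2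
  set T : ℤ → Set ℤ[X] := fun t => (fun x : ℤ × ℤ => F t x.1 x.2) '' (SG' t p ∪ SD t (p ^ b))
    with hT
  have hsub : Ex p b ⊆ {f ∈ weilPolys (p ^ (2 * b)) 3 | OddNR (p ^ (2 * b)) f} ∪
      (T ((p : ℤ) ^ b) ∪ T (-(p : ℤ) ^ b)) := by
    rintro f ⟨hf, hirr, hHT, hex⟩
    have hw := hst hq1 hf.1 hirr hex
    by_cases hO : OddNR (p ^ (2 * b)) f
    · exact Or.inl ⟨hf.1, hO⟩
    · right
      have hf1 := hf.1
      rw [← hsq] at hf1 hw hO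
      obtain ⟨t, A, n, ht, hAn, rfl⟩ := h4b (p ^ b) f hs hf1 hw hO
      have hR : Reg t A n := (h1 (p ^ b) t A n hs ht hAn).1 hf1
      have ht' : t = (p : ℤ) ^ b ∨ t = -(p : ℤ) ^ b := by
        rcases ht with h | h
        · left; rw [h]; push_cast; rfl
        · right; rw [h]; push_cast; rfl
      have hns := h7 p b t A n hb ht' hHT
      have hmem : (A, n) ∈ SG' t p ∪ SD t (p ^ b) := by
        by_cases hpn : (p : ℤ) ∣ n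
        · right
          refine ⟨hR, ?_⟩
          have h10 := h8 p b t A n hb ht' hns hHT hpn
          rw [hcastZ, ← pow_mul, mul_comm b 2]
          exact h10
        · exact Or.inl ⟨hR, hpn, hns⟩
      rcases ht' with rfl | rfl
      · exact Or.inl ⟨(A, n), hmem, rfl⟩
      · exact Or.inr ⟨(A, n), hmem, rfl⟩
  have hT1 : (T ((p : ℤ) ^ b)).Finite := (a1.union d1).image _
  have hT2 : (T (-(p : ℤ) ^ b)).Finite := (b1.union e1).image _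
  have hcard : (Ex p b).ncard ≤
      {f ∈ weilPolys (p ^ (2 * b)) 3 | OddNR (p ^ (2 * b)) f}.ncard +
      (((SG' ((p : ℤ) ^ b) p).ncard + (SD ((p : ℤ) ^ b) (p ^ b)).ncard) +
        ((SG' (-(p : ℤ) ^ b) p).ncard + (SD (-(p : ℤ) ^ b) (p ^ b)).ncard)) := by
    refine (Set.ncard_le_ncard hsub (hfinO.union (hT1.union hT2))).trans ?_
    refine (Set.ncard_union_le _ _).trans (Nat.add_le_add_left ?_ _)
    refine (Set.ncard_union_le _ _).trans (Nat.add_le_add ?_ ?_)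
    · exact (Set.ncard_image_le (a1.union d1)).trans (Set.ncard_union_le _ _)
    · exact (Set.ncard_image_le (b1.union e1)).trans (Set.ncard_union_le _ _)
  have hcardR : ((Ex p b).ncard : ℝ) ≤
      ({f ∈ weilPolys (p ^ (2 * b)) 3 | OddNR (p ^ (2 * b)) f}.ncard : ℝ) +
      ((((SG' ((p : ℤ) ^ b) p).ncard : ℝ) + ((SD ((p : ℤ) ^ b) (p ^ b)).ncard : ℝ)) +
        (((SG' (-(p : ℤ) ^ b) p).ncard : ℝ) + ((SD (-(p : ℤ) ^ b) (p ^ b)).ncard : ℝ))) := by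
    exact_mod_cast hcard
  have hO' : ({f ∈ weilPolys (p ^ (2 * b)) 3 | OddNR (p ^ (2 * b)) f}.ncard : ℝ) ≤
      C' * ((p : ℝ) ^ b) ^ 2 := by
    refine hO.trans (le_of_eq ?_)
    push_cast
    ring
  have c1 := (abs_le.1 a2).2
  have c2 := (abs_le.1 b2).2
  linarith

/-- The lower bound. -/
theorem lower2 (h1 : T1) (h5 : T5) (h6 : T6) (h6' : U6) (h9 : T9) (h10 : T10) (s18 : S18)
    (hu5 : U5) :
    ∃ C : ℝ, 0 < C ∧ ∀ (p : ℕ) [Fact p.Prime] (b : ℕ), 0 < b →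
      128 / 15 * (2 * kbar p) * ((p : ℝ) ^ b) ^ 3 - C * ((p : ℝ) ^ b) ^ 2 ≤
        ((Ex p b).ncard : ℝ) := by
  classical
  obtain ⟨C, hC, h⟩ := good_counts hu5
  obtain ⟨C₉, hC₉, h9⟩ := h9
  obtain ⟨C₁, hC₁, h10⟩ := h10
  refine ⟨C₉ + 2 * C₁ + 2 * C, by positivity, fun p _ b hb => ?_⟩
  have hp : p.Prime := Fact.out
  have hs : 0 < p ^ b := pow_pos hp.pos b
  have hs1 : 1 < p ^ b := Nat.one_lt_pow hb.ne' hp.one_lt
  have hsq : (p ^ b) ^ 2 = p ^ (2 * b) := by rw [← pow_mul, mul_comm]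
  have hq1 : 1 < p ^ (2 * b) := Nat.one_lt_pow (by omega) hp.one_lt
  have hcastN : ((p ^ b : ℕ) : ℝ) = (p : ℝ) ^ b := by push_cast; rfl
  have hcastZ : ((p ^ b : ℕ) : ℤ) = (p : ℤ) ^ b := by push_cast; rfl
  obtain ⟨a1, a4⟩ := h p b hb ((p : ℤ) ^ b) (Or.inl rfl)
  obtain ⟨b1, b4⟩ := h p b hb (-(p : ℤ) ^ b) (Or.inr rfl)
  obtain ⟨f9, c9⟩ := h9 (p ^ b) hs
  obtain ⟨f10, c10⟩ := h10 (p ^ b) ((p : ℤ) ^ b) hs (Or.inl hcastZ.symm)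
  obtain ⟨f11, c11⟩ := h10 (p ^ b) (-(p : ℤ) ^ b) hs (Or.inr (by rw [hcastZ]))
  rw [hcastN] at c9 c10 c11
  rw [hcastZ] at f9 c9
  change (SR ((p : ℤ) ^ b)).Finite at f10
  change (SR (-(p : ℤ) ^ b)).Finite at f11
  change ((SR ((p : ℤ) ^ b)).ncard : ℝ) ≤ _ at c10
  change ((SR (-(p : ℤ) ^ b)).ncard : ℝ) ≤ _ at c11
  set G : ℤ → Set (ℤ × ℤ) := fun t => SG' t p \ SR t with hG
  set T : ℤ → Set ℤ[X] := fun t => (fun x : ℤ × ℤ => F t x.1 x.2) '' G t with hT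
  have hGcard : ∀ t : ℤ, (SG' t p).Finite → (SR t).Finite →
      ((SG' t p).ncard : ℝ) ≤ ((G t).ncard : ℝ) + ((SR t).ncard : ℝ) := by
    intro t k1 k3
    have h1 : SG' t p ⊆ G t ∪ SR t := by
      intro x hx
      by_cases h : x ∈ SR t
      · exact Or.inr h
      · exact Or.inl ⟨hx, h⟩
    have h2 := (Set.ncard_le_ncard h1 ((k1.subset Set.sdiff_subset).union k3)).trans
      (Set.ncard_union_le _ _)
    exact_mod_cast h2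
  have hTE : ∀ t : ℤ, (t = (p : ℤ) ^ b ∨ t = -(p : ℤ) ^ b) → T t ⊆ Ex p b := by
    rintro t ht f ⟨⟨A, n⟩, ⟨⟨hR, hpn, hN⟩, hno⟩, rfl⟩
    simp only at hR hpn hN
    have hrt : ∀ b', ¬ Rt t A n b' := by
      intro b' hb'
      apply hno
      exact ⟨hR, b', hb'⟩
    have ht' : t = ((p ^ b : ℕ) : ℤ) ∨ t = -((p ^ b : ℕ) : ℤ) := by
      rw [hcastZ]
      exact ht
    obtain ⟨hnw, hz⟩ := h5 p b t A n hb ht hR hpn
    have hw : F t A n ∈ weilPolys ((p ^ b) ^ 2) 3 := (h1 (p ^ b) t A n hs ht' hR.1).2 hR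
    rw [← hsq] at hz
    obtain ⟨hirr, hexl⟩ := h6 (p ^ b) t A n hs1 ht' hR.1 hw hrt hz
    rw [hsq] at hexl
    exact ⟨hnw, hirr, h6' p b t A n hb ht hR hpn hN hirr,
      s18 (p ^ (2 * b)) hq1 _ hnw.1.2.2.2 hexl⟩
  have hEfin : (Ex p b).Finite := newtonWeil_finite.subset fun f hf => hf.1
  have hT1fin : (T ((p : ℤ) ^ b)).Finite := (a1.subset Set.sdiff_subset).image _
  have hT2fin : (T (-(p : ℤ) ^ b)).Finite := (b1.subset Set.sdiff_subset).image _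
  have hT1card : (T ((p : ℤ) ^ b)).ncard = (G ((p : ℤ) ^ b)).ncard :=
    Set.ncard_image_of_injective _ (F_inj' _)
  have hT2card : (T (-(p : ℤ) ^ b)).ncard = (G (-(p : ℤ) ^ b)).ncard :=
    Set.ncard_image_of_injective _ (F_inj' _)
  have hinter : (T ((p : ℤ) ^ b) ∩ T (-(p : ℤ) ^ b)).ncard ≤
      {x : ℤ × ℤ | Reg ((p : ℤ) ^ b) x.1 x.2 ∧
        ∃ A n : ℤ, F ((p : ℤ) ^ b) x.1 x.2 = F (-(p : ℤ) ^ b) A n}.ncard := by
    have hsub : T ((p : ℤ) ^ b) ∩ T (-(p : ℤ) ^ b) ⊆ (fun x : ℤ × ℤ => F ((p : ℤ) ^ b) x.1 x.2) ''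
        {x : ℤ × ℤ | Reg ((p : ℤ) ^ b) x.1 x.2 ∧
          ∃ A n : ℤ, F ((p : ℤ) ^ b) x.1 x.2 = F (-(p : ℤ) ^ b) A n} := by
      rintro f ⟨⟨x, hx, rfl⟩, ⟨y, -, hxy⟩⟩
      exact ⟨x, ⟨hx.1.1, y.1, y.2, hxy.symm⟩, rfl⟩
    exact (Set.ncard_le_ncard hsub (f9.image _)).trans (Set.ncard_image_le f9)
  have hunion : (T ((p : ℤ) ^ b) ∪ T (-(p : ℤ) ^ b)).ncard ≤ (Ex p b).ncard :=
    Set.ncard_le_ncard (Set.union_subset (hTE _ (Or.inl rfl)) (hTE _ (Or.inr rfl))) hEfin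
  have hadd := Set.ncard_union_add_ncard_inter (T ((p : ℤ) ^ b)) (T (-(p : ℤ) ^ b)) hT1fin hT2fin
  have hfinal : (G ((p : ℤ) ^ b)).ncard + (G (-(p : ℤ) ^ b)).ncard ≤ (Ex p b).ncard +
      {x : ℤ × ℤ | Reg ((p : ℤ) ^ b) x.1 x.2 ∧
        ∃ A n : ℤ, F ((p : ℤ) ^ b) x.1 x.2 = F (-(p : ℤ) ^ b) A n}.ncard := by
    omega
  have hfinalR : ((G ((p : ℤ) ^ b)).ncard : ℝ) + ((G (-(p : ℤ) ^ b)).ncard : ℝ) ≤
      ((Ex p b).ncard : ℝ) + ({x : ℤ × ℤ | Reg ((p : ℤ) ^ b) x.1 x.2 ∧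
        ∃ A n : ℤ, F ((p : ℤ) ^ b) x.1 x.2 = F (-(p : ℤ) ^ b) A n}.ncard : ℝ) := by
    exact_mod_cast hfinal
  have g1 := hGcard _ a1 f10
  have g2 := hGcard _ b1 f11
  have c1 := (abs_le.1 a4).1
  have c2 := (abs_le.1 b4).1
  linarith

end Pool.Agent.H857.TF
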