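import Pool.Agent.H857.TF.Core3
import Pool.Agent.H857.TF.Asm

/-!
# Abelian threefolds with exotic Tate classes: the fields with a nonsquare number of elements
-/

set_option autoImplicit false

namespace Pool.Agent.H857.TF

open Module Polynomial Pool.Agent.W521.Descent Pool.Agent.W521.Density Pool.Agent.W521.Count
  Pool.Agent.X297.UB Pool.Agent.H857.PB Pool.Agent.H857.PA Pool.Agent.H857.HK Pool.Agent.H857.EF
  Pool.Agent.H857.WT Pool.Agent.H857.SG Pool.Agent.H857.PD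

/-- The irreducible exotic polynomials which come from abelian threefolds. -/
def ExN (p : ℕ) [Fact p.Prime] (b : ℕ) : Set ℤ[X] :=
  {f ∈ newtonWeil p (2 * b + 1) 3 | Irreducible f ∧ HondaTate p (2 * b + 1) f ∧
    HasExotic (p ^ (2 * b + 1)) f}

/-- The good parameters. -/
def PN (p : ℕ) (b : ℕ) : Set (ℤ × ℤ) :=
  {x : ℤ × ℤ | 4 ∣ x.1 ^ 2 + p * x.2 ^ 2 ∧ RegN ((p : ℤ) ^ b) p x.1 x.2 ∧ ¬ (p : ℤ) ∣ x.1}

/-- The exceptional parameters. -/
def PE (p : ℕ) (b : ℕ) : Set (ℤ × ℤ) :=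
  {x : ℤ × ℤ | RegN ((p : ℤ) ^ b) p x.1 x.2 ∧ (x.2 = 2 * (p : ℤ) ^ b ∨
    ∃ n : ℤ, 4 * n = x.1 ^ 2 + p * x.2 ^ 2 ∧ (p : ℤ) ^ (2 * b + 1) ∣ n)}

/-- The polynomial with given parameters. -/
noncomputable def GG (p : ℕ) (b : ℕ) (x : ℤ × ℤ) : ℤ[X] :=
  G ((p : ℤ) ^ b) p x.1 x.2 ((x.1 ^ 2 + p * x.2 ^ 2) / 4)

lemma coeff5 (c p A B n : ℤ) : (G c p A B n).coeff 5 = A := by
  unfold G
  simp only [coeff_add, coeff_X_pow, coeff_C_mul, coeff_X, coeff_C]
  norm_num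

lemma coeff3 (c p A B n : ℤ) : (G c p A B n).coeff 3 = c * p * A * B := by
  unfold G
  simp only [coeff_add, coeff_X_pow, coeff_C_mul, coeff_X, coeff_C]
  norm_num

lemma GG_inj {p : ℕ} (hp : p.Prime) (b : ℕ) {x y : ℤ × ℤ} (hx : ¬ (p : ℤ) ∣ x.1)
    (h : GG p b x = GG p b y) : x = y := by
  have h5 := congrArg (fun f => f.coeff 5) h
  have h3 := congrArg (fun f => f.coeff 3) h
  simp only [GG, coeff5, coeff3] at h5 h3
  have hx0 : x.1 ≠ 0 := fun h => hx (h ▸ dvd_zero _)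
  have hpz : (p : ℤ) ≠ 0 := by exact_mod_cast hp.ne_zero
  have hc : (p : ℤ) ^ b * p * x.1 ≠ 0 := mul_ne_zero (mul_ne_zero (pow_ne_zero _ hpz) hpz) hx0
  rw [← h5] at h3
  exact Prod.ext h5 (mul_left_cancel₀ hc h3)

/-- The count of the exotic polynomials. -/
theorem countN (hst : ∀ {q : ℕ}, 1 < q → ∀ {f : ℤ[X]}, f ∈ weilPolys q 3 → Irreducible f →
      HasExotic q f → OfOddWeilType q 3 f)
    (n1 : N1) (n2 : N2) (n3 : N3) (n4 : N4) (n5a : N5a) (n5b : N5b) (n6 : N6) (n7 : N7c) (n8 : N8)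
    (s18 : S18) :
    ∃ C : ℝ, 0 < C ∧ ∀ (p : ℕ) [Fact p.Prime] (b : ℕ), 5 ≤ p →
      |((ExN p b).ncard : ℝ) - (if p % 4 = 3 then 4 else 2) * Real.pi * (1 - 1 / p) *
        ((p : ℝ) ^ b * ((p : ℝ) ^ b * Real.sqrt p))| ≤ C * ((p : ℝ) ^ b * Real.sqrt p) := by
  classical
  obtain ⟨C₇, hC₇, h7⟩ := n7
  obtain ⟨C₈, hC₈, h8⟩ := n8
  refine ⟨C₇ + C₈, by positivity, fun p _ b hp5 => ?_⟩
  have hp : p.Prime := Fact.out
  have hp2 : p ≠ 2 := by omega
  have hpR : (0 : ℝ) < p := by exact_mod_cast hp.pos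
  obtain ⟨f7, c7⟩ := h7 p b hp2
  obtain ⟨f8, c8⟩ := h8 p b
  change (PN p b).Finite at f7
  change |((PN p b).ncard : ℝ) - _| ≤ _ at c7
  change (PE p b).Finite at f8
  change ((PE p b).ncard : ℝ) ≤ _ at c8
  have hq : (p ^ b) ^ 2 * p = p ^ (2 * b + 1) := by rw [← pow_mul, mul_comm b 2, pow_succ]
  have hq1 : 1 < p ^ (2 * b + 1) := Nat.one_lt_pow (by omega) hp.one_lt
  have hcast : ((p ^ b : ℕ) : ℤ) = (p : ℤ) ^ b := by push_cast; rfl
  have hn2 : ∀ A B n : ℤ, 4 * n = A ^ 2 + p * B ^ 2 →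
      (G ((p : ℤ) ^ b) p A B n ∈ weilPolys (p ^ (2 * b + 1)) 3 ↔ RegN ((p : ℤ) ^ b) p A B) := by
    intro A B n h
    have h1 := n2 (p ^ b) p A B n (pow_pos hp.pos b) hp.pos h
    rwa [hq, hcast] at h1
  have hGG : ∀ A B n : ℤ, 4 * n = A ^ 2 + p * B ^ 2 → GG p b (A, B) = G ((p : ℤ) ^ b) p A B n := by
    intro A B n h
    unfold GG
    simp only
    rw [← h, Int.mul_ediv_cancel_left n (by norm_num)]
  have hEfin : (ExN p b).Finite := newtonWeil_finite.subset fun f hf => hf.1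
  -- the upper bound
  have hup : (ExN p b).ncard ≤ (PN p b).ncard + (PE p b).ncard := by
    have hsub : ExN p b ⊆ GG p b '' (PN p b ∪ PE p b) := by
      rintro f ⟨hf, hirr, hHT, hex⟩
      obtain ⟨A, B, n, hn, hfG⟩ := n1 p b f hp5 hf.1 (hst hq1 hf.1 hirr hex)
      have hreg : RegN ((p : ℤ) ^ b) p A B := (hn2 A B n hn).1 (hfG ▸ hf.1)
      refine ⟨(A, B), ?_, by rw [hGG A B n hn, hfG]⟩
      by_cases hA : (p : ℤ) ∣ A
      · exact Or.inr ⟨hreg, Or.inr ⟨n, hn, n3 p b A B n hp2 hn (hfG ▸ hf) hA⟩⟩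
      · exact Or.inl ⟨⟨n, hn.symm⟩, hreg, hA⟩
    refine (Set.ncard_le_ncard hsub ((f7.union f8).image _)).trans ?_
    exact (Set.ncard_image_le (f7.union f8)).trans (Set.ncard_union_le _ _)
  -- the lower bound
  have hlow : (PN p b).ncard ≤ (ExN p b).ncard + (PE p b).ncard := by
    have hsub : PN p b ⊆ (PN p b \ PE p b) ∪ PE p b := by
      intro x hx
      by_cases h : x ∈ PE p b
      · exact Or.inr h
      · exact Or.inl ⟨hx, h⟩
    have hfin : (PN p b \ PE p b).Finite := f7.subset Set.sdiff_subset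
    have h1 : (PN p b \ PE p b).ncard ≤ (ExN p b).ncard := by
      rw [← Set.InjOn.ncard_image (f := GG p b) (s := PN p b \ PE p b)]
      · refine Set.ncard_le_ncard ?_ hEfin
        rintro f ⟨⟨A, B⟩, ⟨⟨⟨n, hn⟩, hreg, hA⟩, hno⟩, rfl⟩
        simp only at hn hreg hA
        have hn' : 4 * n = A ^ 2 + p * B ^ 2 := hn.symm
        have hB : B ≠ 2 * (p : ℤ) ^ b := fun h => hno ⟨hreg, Or.inl h⟩
        rw [hGG A B n hn']
        have hw := (hn2 A B n hn').2 hreg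
        obtain ⟨hnw, z, hz, hz'⟩ := n4 p b A B n hp2 hn' hw hA
        have hroot := n5a p b A B n hp5 hn' hA hB
        have h5 := n5b (p ^ b) p A B n (pow_pos hp.pos b) hp.pos (by rw [hq]; exact hq1) hn'
          (by rw [hq, hcast]; exact hw) (by rw [hcast]; exact hroot)
          (by rw [hq, hcast]; exact ⟨z, hz, hz'⟩)
        rw [hq, hcast] at h5
        obtain ⟨hirr, hexl⟩ := h5
        exact ⟨hnw, hirr, n6 p b A B n hp2 hn' hw hA hirr,
          s18 (p ^ (2 * b + 1)) hq1 _ hw.2.2.2 hexl⟩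
      · intro x hx y hy hxy
        exact GG_inj hp b hx.1.2.2 hxy
    have h2 := (Set.ncard_le_ncard hsub (hfin.union f8)).trans (Set.ncard_union_le _ _)
    omega
  have hupR : ((ExN p b).ncard : ℝ) ≤ ((PN p b).ncard : ℝ) + ((PE p b).ncard : ℝ) := by
    exact_mod_cast hup
  have hlowR : ((PN p b).ncard : ℝ) ≤ ((ExN p b).ncard : ℝ) + ((PE p b).ncard : ℝ) := by
    exact_mod_cast hlow
  have hc7 := abs_le.1 c7
  rw [abs_le]
  constructor
  · nlinarith [hc7.1]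
  · nlinarith [hc7.2]

end Pool.Agent.H857.TF
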