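import Pool.Agent.H857.PD.Core

/-!
# Abelian threefolds with exotic Tate classes: the list of the statements
-/

set_option autoImplicit false

namespace Pool.Agent.H857.TF

open Module Polynomial Pool.Agent.W521.Descent Pool.Agent.W521.Density Pool.Agent.W521.Count
  Pool.Agent.X297.UB Pool.Agent.H857.PB Pool.Agent.H857.PA Pool.Agent.H857.HK Pool.Agent.H857.EF
  Pool.Agent.H857.WT Pool.Agent.H857.SG Pool.Agent.H857.PD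

/-- The product of `X ^ 3 + α X ^ 2 + t ᾱ X + t ^ 3` and its conjugate, where `A = α + ᾱ` and
`n = α ᾱ`. -/
noncomputable def F (t A n : ℤ) : ℤ[X] :=
  X ^ 6 + C A * X ^ 5 + C (n + t * A) * X ^ 4 + C (t * (2 * t ^ 2 + A ^ 2 - 2 * n)) * X ^ 3 +
    C (t ^ 2 * (n + t * A)) * X ^ 2 + C (t ^ 4 * A) * X + C (t ^ 6)

/-- The region of the parameters. -/
def Reg (t A n : ℤ) : Prop :=
  A ^ 2 < 4 * n ∧ (n + 6 * A * t + 9 * t ^ 2) ^ 2 ≤ 4 * t * (A + 3 * t) ^ 3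

/-- `b` is a root of the real polynomial `H` with `F = X ^ 3 H (X + t ^ 2 / X)`. -/
def Rt (t A n b : ℤ) : Prop :=
  b ^ 3 + A * b ^ 2 + (n + t * A - 3 * t ^ 2) * b - 2 * t ^ 2 * A + 2 * t ^ 3 + t * A ^ 2 -
    2 * t * n = 0

/-- `f` is of odd Weil type, and the constant term of the factor `h` is not real. -/
def OddNR (q : ℕ) (f : ℤ[X]) : Prop :=
  ∃ (D : ℕ) (h : ℂ[X]), 0 < D ∧ h.Monic ∧ (∀ j, h.coeff j ∈ quadField D) ∧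
    f.map (Int.castRingHom ℂ) = h * h.map (starRingEnd ℂ) ∧
    IsCoprime h (h.map (starRingEnd ℂ)) ∧
    (∃ N : ℕ, 0 < N ∧ h.coeff 0 ^ (2 * N) = ((q : ℂ) ^ 3) ^ N) ∧ (h.coeff 0).im ≠ 0

/-- T1a: the region is the set of the parameters for which `H` has three real roots. -/
def T1a : Prop := ∀ t A n : ℤ, A ^ 2 < 4 * n → (Reg t A n ↔ ∃ x y z : ℝ, x + y + z = -A ∧
  x * y + y * z + z * x = n + t * A - 3 * t ^ 2 ∧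
  x * y * z = 2 * t ^ 2 * A - 2 * t ^ 3 - t * A ^ 2 + 2 * t * n)

/-- T1: the Weil polynomials among the `F t A n`. -/
def T1 : Prop := ∀ (s : ℕ) (t A n : ℤ), 0 < s → (t = s ∨ t = -s) → A ^ 2 < 4 * n →
  (F t A n ∈ weilPolys (s ^ 2) 3 ↔ Reg t A n)

/-- The length of the section of the region. -/
noncomputable def len (a : ℝ) : ℝ :=
  if a ≤ -2 then 4 * Real.sqrt (a + 3) ^ 3 else
    if a ≤ 6 then (3 - Real.sqrt (a + 3)) ^ 3 * (Real.sqrt (a + 3) + 1) / 4 else 0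

/-- T2a: a Riemann sum. -/
def T2a : Prop := ∃ C : ℝ, 0 < C ∧ ∀ s : ℕ, 0 < s →
  |∑ A ∈ Finset.Icc (-3 * (s : ℤ)) (6 * s), (s : ℝ) ^ 2 * len (A / s) -
    128 / 15 * (s : ℝ) ^ 3| ≤ C * (s : ℝ) ^ 2

/-- T2b: the points on a line. -/
def T2b : Prop := ∃ C : ℝ, 0 < C ∧ ∀ (s m : ℕ), 0 < s → 0 < m → ∀ (Ω : Set (ZMod m)) (A : ℤ),
  {n : ℤ | Reg s A n ∧ (n : ZMod m) ∈ Ω}.Finite ∧
  ({n : ℤ | Reg s A n ∧ (n : ZMod m) ∈ Ω}.Nonempty → -3 * (s : ℤ) ≤ A ∧ A ≤ 6 * s) ∧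
  (-3 * (s : ℤ) ≤ A → A ≤ 6 * s →
    |({n : ℤ | Reg s A n ∧ (n : ZMod m) ∈ Ω}.ncard : ℝ) -
      ((Ω.ncard : ℝ) / m) * ((s : ℝ) ^ 2 * len (A / s))| ≤ C * m)

/-- T2: the number of the points of the region in residue classes. -/
def T2 : Prop := ∃ C : ℝ, 0 < C ∧ ∀ (s m : ℕ), 0 < s → 0 < m → m ≤ s →
  ∀ (Ω : ℤ → Set (ZMod m)) (k : ℕ), (∀ A, (Ω A).ncard = k) →
  {x : ℤ × ℤ | Reg s x.1 x.2 ∧ (x.2 : ZMod m) ∈ Ω x.1}.Finite ∧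
  |({x : ℤ × ℤ | Reg s x.1 x.2 ∧ (x.2 : ZMod m) ∈ Ω x.1}.ncard : ℝ) -
    128 / 15 * (k / m : ℝ) * (s : ℝ) ^ 3| ≤ C * (s : ℝ) ^ 2

/-- T3: residue classes with quadratic nonresidues. -/
def T3 : Prop := ∀ (p : ℕ) [Fact p.Prime], p ≠ 2 → ∀ A : ℤ,
  {n : ZMod p | ∀ w : ZMod p, w ^ 2 ≠ (A : ZMod p) ^ 2 - 4 * n}.ncard = (p - 1) / 2 ∧
  {n : ZMod p | (A : ZMod p) ^ 2 - 4 * n = 0}.ncard = 1

/-- T4a: the number of the polynomials with a factor with nonreal constant term. -/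
def T4a : Prop := ∃ C : ℝ, 0 < C ∧ ∀ q : ℕ, 0 < q →
  {f ∈ weilPolys q 3 | OddNR q f}.Finite ∧ ({f ∈ weilPolys q 3 | OddNR q f}.ncard : ℝ) ≤ C * q

/-- T4b: the others. -/
def T4b : Prop := ∀ (s : ℕ) (f : ℤ[X]), 0 < s → f ∈ weilPolys (s ^ 2) 3 →
  OfOddWeilType (s ^ 2) 3 f → ¬ OddNR (s ^ 2) f →
  ∃ t A n : ℤ, (t = s ∨ t = -s) ∧ A ^ 2 < 4 * n ∧ f = F t A n

/-- T4c: there are no others if `q` is not a square. -/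
def T4c : Prop := ∀ (q : ℕ) (f : ℤ[X]), 0 < q → ¬ IsSquare q → OfOddWeilType q 3 f → OddNR q f

/-- T5: integral Newton polygons. -/
def T5 : Prop := ∀ (p : ℕ) [Fact p.Prime] (b : ℕ) (t A n : ℤ), 0 < b →
  (t = (p : ℤ) ^ b ∨ t = -(p : ℤ) ^ b) → Reg t A n → ¬ (p : ℤ) ∣ n →
  F t A n ∈ newtonWeil p (2 * b) 3 ∧
  ∃ z : ℂ, aeval z (F t A n) = 0 ∧ ∀ M : ℕ, 0 < M → z ^ (2 * M) ≠ ((p ^ (2 * b) : ℕ) : ℂ) ^ M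

/-- T6: irreducibility and exotic relations. -/
def T6 : Prop := ∀ (s : ℕ) (t A n : ℤ), 1 < s → (t = s ∨ t = -s) → A ^ 2 < 4 * n →
  F t A n ∈ weilPolys (s ^ 2) 3 → (∀ b, ¬ Rt t A n b) →
  (∃ z : ℂ, aeval z (F t A n) = 0 ∧ ∀ M : ℕ, 0 < M → z ^ (2 * M) ≠ ((s ^ 2 : ℕ) : ℂ) ^ M) →
  Irreducible (F t A n) ∧ ExL (s ^ 2) (F t A n)

/-- T7: the condition of Honda and Tate. -/
def T7 : Prop := ∀ (p : ℕ) [Fact p.Prime] (b : ℕ) (t A n : ℤ), p ≠ 2 → 0 < b →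
  (t = (p : ℤ) ^ b ∨ t = -(p : ℤ) ^ b) → Reg t A n → ¬ (p : ℤ) ∣ n →
  (∀ w : ZMod p, w ^ 2 ≠ (A : ZMod p) ^ 2 - 4 * (n : ZMod p)) → Irreducible (F t A n) →
  HondaTate p (2 * b) (F t A n)

/-- T8: a consequence of the condition of Honda and Tate. -/
def T8 : Prop := ∀ (p : ℕ) [Fact p.Prime] (b : ℕ) (t A n : ℤ), p ≠ 2 → 0 < b →
  (t = (p : ℤ) ^ b ∨ t = -(p : ℤ) ^ b) → HondaTate p (2 * b) (F t A n) →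
  (∀ w : ZMod p, w ^ 2 ≠ (A : ZMod p) ^ 2 - 4 * (n : ZMod p)) ∨
    (A : ZMod p) ^ 2 - 4 * (n : ZMod p) = 0

/-- T9: collisions. -/
def T9 : Prop := ∃ C : ℝ, 0 < C ∧ ∀ s : ℕ, 0 < s →
  {x : ℤ × ℤ | Reg s x.1 x.2 ∧ ∃ A n : ℤ, F s x.1 x.2 = F (-s) A n}.Finite ∧
  ({x : ℤ × ℤ | Reg s x.1 x.2 ∧ ∃ A n : ℤ, F s x.1 x.2 = F (-s) A n}.ncard : ℝ) ≤
    C * (s : ℝ) ^ 2

/-- T10: the reducible ones. -/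
def T10 : Prop := ∃ C : ℝ, 0 < C ∧ ∀ (s : ℕ) (t : ℤ), 0 < s → (t = s ∨ t = -s) →
  {x : ℤ × ℤ | Reg t x.1 x.2 ∧ ∃ b, Rt t x.1 x.2 b}.Finite ∧
  ({x : ℤ × ℤ | Reg t x.1 x.2 ∧ ∃ b, Rt t x.1 x.2 b}.ncard : ℝ) ≤ C * (s : ℝ) ^ 2

/-! ### Reducible polynomials -/

/-- The labels of the product of a linear and a quadratic factor. -/
noncomputable def lab3 (q : ℕ) (y : Fin 1 → ℤ) (z : Fin 2 → ℤ) : Fin 1 ⊕ Fin 2 → ℂ :=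
  Sum.elim (labA q 1 y) (labA q 2 z)

/-- R1: an identity. -/
def R1 : Prop := ∀ (q : ℕ) (z : Fin 2 → ℤ) (β : ℂ), 0 < q → wp q 2 z ∈ weilPolys q 2 →
  (β = labA q 2 z 1 ∨ β = q / labA q 2 z 1) →
  (q : ℂ) * (z 1 : ℂ) ^ 2 = (2 * q + z 0 - (labA q 2 z 0 * β + q ^ 2 / (labA q 2 z 0 * β))) *
    ((labA q 2 z 0 * β + q ^ 2 / (labA q 2 z 0 * β)) + 2 * q)

/-- R2: the structure of the exotic relations. -/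
def R2 : Prop := ∀ (q m : ℕ) (y : Fin 1 → ℤ) (z : Fin 2 → ℤ) (e : Fin 1 ⊕ Fin 2 → ℤ), 1 < q →
  Kills 2 m → wp q 1 y ∈ weilPolys q 1 → wp q 2 z ∈ weilPolys q 2 →
  Irreducible (mkPoly 2 z) → (∃ i, e i ≠ 0) → RelZ q (lab3 q y z) e → Even (∑ i, e i) →
  (∀ i j, i ≠ j → e i ≠ 0 → e j ≠ 0 →
    ¬ RelZ q (lab3 q y z) (Pi.single i (e i).sign + Pi.single j (e j).sign)) →
  (∀ i, 2 ≤ |e i| → ¬ RelZ q (lab3 q y z) (Pi.single i 1)) →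
  ∃ β : ℂ, (β = labA q 2 z 1 ∨ β = q / labA q 2 z 1) ∧
    ((∃ b k l : ℤ, b ≠ -2 * q ∧ labA q 2 z 0 * β + q ^ 2 / (labA q 2 z 0 * β) = b ∧ k ≠ 0 ∧
        RelZ (q ^ 2) ![labA q 2 z 0 * β, labA q 1 y 0 ^ 2] ![k, l]) ∨
      (∃ ζ : ℂ, ζ ^ m = 1 ∧ ζ ≠ -1 ∧ labA q 2 z 0 * β = q * ζ) ∨
      (z 1 = 0 ∧ ∃ k l : ℤ, k ≠ 0 ∧
        RelZ (q ^ 2) ![labA q 2 z 0 ^ 2, labA q 1 y 0 ^ 2] ![k, l]))

/-- R3m: products of Weil numbers. -/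
def R3m : Prop := ∀ (p : ℕ) [Fact p.Prime] (a D : ℕ) (α β : ℂ), 0 < a → 0 < D →
  IsWeilNum p a D 1 α → IsWeilNum p a D 1 β → IsWeilNum p (2 * a) (2 * D) 1 (α * β)

/-- R3: the number of the Weil numbers of degree two related to a given number. -/
def R3 : Prop := ∀ D : ℕ, 0 < D → ∃ C : ℝ, 0 < C ∧ ∀ (p : ℕ) [Fact p.Prime] (a : ℕ), 0 < a →
  ∀ ρ : ℂ, IsWeilNum p a D 1 ρ →
    {b : ℤ | ∃ (γ : ℂ) (k l : ℤ), γ + (p ^ a : ℂ) ^ 2 / γ = b ∧ ‖γ‖ ^ 2 = ((p : ℝ) ^ a) ^ 2 ∧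
      IsWeilNum p (2 * a) (2 * D) 1 γ ∧ k ≠ 0 ∧ RelZ ((p ^ a) ^ 2) ![γ, ρ ^ 2] ![k, l]}.Finite ∧
    ({b : ℤ | ∃ (γ : ℂ) (k l : ℤ), γ + (p ^ a : ℂ) ^ 2 / γ = b ∧ ‖γ‖ ^ 2 = ((p : ℝ) ^ a) ^ 2 ∧
      IsWeilNum p (2 * a) (2 * D) 1 γ ∧ k ≠ 0 ∧ RelZ ((p ^ a) ^ 2) ![γ, ρ ^ 2] ![k, l]}.ncard : ℝ) ≤ C

/-- R5: three linear factors. -/
def R5 : Prop := ∃ C : ℝ, 0 < C ∧ ∀ (p : ℕ) [Fact p.Prime] (a : ℕ), 0 < a →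
  ({f ∈ newtonWeil p a 3 | ExL (p ^ a) f ∧ ∃ x y z : Fin 1 → ℤ,
    f = wp (p ^ a) 1 x * wp (p ^ a) 1 y * wp (p ^ a) 1 z ∧ wp (p ^ a) 1 x ∈ weilPolys (p ^ a) 1 ∧
    wp (p ^ a) 1 y ∈ weilPolys (p ^ a) 1 ∧ wp (p ^ a) 1 z ∈ weilPolys (p ^ a) 1}.ncard : ℝ) ≤
    C * (p : ℝ) ^ a

/-- R6: a linear and an irreducible quadratic factor. -/
def R6 : Prop := ∃ C : ℝ, 0 < C ∧ ∀ (p : ℕ) [Fact p.Prime] (a : ℕ), 0 < a →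
  ({f ∈ newtonWeil p a 3 | ExL (p ^ a) f ∧ ∃ (y : Fin 1 → ℤ) (z : Fin 2 → ℤ),
    f = wp (p ^ a) 1 y * wp (p ^ a) 2 z ∧ wp (p ^ a) 1 y ∈ weilPolys (p ^ a) 1 ∧
    wp (p ^ a) 2 z ∈ weilPolys (p ^ a) 2 ∧ Irreducible (mkPoly 2 z)}.ncard : ℝ) ≤
    C * (p : ℝ) ^ a

/-- R4: the reducible polynomials with exotic relations in dimension three. -/
def R4 : Prop := ∃ C : ℝ, 0 < C ∧ ∀ (p : ℕ) [Fact p.Prime] (a : ℕ), 0 < a →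
  ({f ∈ newtonWeil p a 3 | ¬ Irreducible f ∧ ExL (p ^ a) f}.ncard : ℝ) ≤ C * (p : ℝ) ^ a

end Pool.Agent.H857.TF
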