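import Pool.Agent.H857.TF.Core

/-!
# Abelian threefolds with exotic Tate classes: the statements for the exact main term
-/

set_option autoImplicit false

namespace Pool.Agent.H857.TF

open Module Polynomial Pool.Agent.W521.Descent Pool.Agent.W521.Density Pool.Agent.W521.Count
  Pool.Agent.X297.UB Pool.Agent.H857.PB Pool.Agent.H857.PA Pool.Agent.H857.HK Pool.Agent.H857.EF
  Pool.Agent.H857.WT Pool.Agent.H857.SG Pool.Agent.H857.PD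

/-- The integer `D` is not a square in the field of `p`-adic numbers. -/
def NonSq (p : ℕ) [Fact p.Prime] (D : ℤ) : Prop := ∀ w : ℚ_[p], w ^ 2 ≠ (D : ℚ_[p])

/-- The density of the `n` with `p ∤ n` such that `A ^ 2 - 4 n` is not a square. -/
noncomputable def kap (p : ℕ) (A : ℤ) : ℝ :=
  if p = 2 then (if A % 2 = 1 then 1 / 2 else if A % 4 = 0 then 3 / 8 else 11 / 24)
  else if (p : ℤ) ∣ A then ((p : ℝ) - 1) / (2 * p) else ((p : ℝ) + 2) / (2 * ((p : ℝ) + 1))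

/-- The average of `kap`. -/
noncomputable def kbar (p : ℕ) : ℝ :=
  ((p : ℝ) - 1) * ((p : ℝ) ^ 2 + 3 * p + 1) / (2 * (p : ℝ) ^ 2 * ((p : ℝ) + 1))

/-- U1: the sections of the region are intervals. -/
def U1 : Prop := ∀ (s : ℕ) (A : ℤ), 0 < s → ∃ lo hi : ℤ,
  {n : ℤ | Reg s A n} = Set.Icc lo hi ∧ hi - lo ≤ 9 * (s : ℤ) ^ 2 ∧
  (lo ≤ hi → -3 * (s : ℤ) ≤ A ∧ A ≤ 6 * s) ∧
  (-3 * (s : ℤ) ≤ A → A ≤ 6 * s → -1 ≤ hi - lo ∧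
    |(((hi - lo : ℤ) : ℝ)) - (s : ℝ) ^ 2 * len (A / s)| ≤ 3)

/-- U2: Riemann sums over residue classes. -/
def U2 : Prop := ∃ C : ℝ, 0 < C ∧ ∀ (s m : ℕ) (c : ℤ), 0 < s → 0 < m →
  |∑ A ∈ Finset.Icc (-3 * (s : ℤ)) (6 * s) with A % m = c % m, (s : ℝ) ^ 2 * len (A / s) -
    128 / 15 * (s : ℝ) ^ 3 / m| ≤ C * (s : ℝ) ^ 2

/-- U3: the numbers in an interval, odd `p`. -/
def U3 : Prop := ∃ C : ℝ, 0 < C ∧ ∀ (p : ℕ) [Fact p.Prime], p ≠ 2 → ∀ (b : ℕ) (A lo hi : ℤ),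
  0 < b → lo ≤ hi → hi - lo ≤ 9 * (p : ℤ) ^ (2 * b) →
  |({n : ℤ | lo ≤ n ∧ n ≤ hi ∧ ¬ (p : ℤ) ∣ n ∧ NonSq p (A ^ 2 - 4 * n)}.ncard : ℝ) -
    kap p A * ((hi - lo : ℤ) : ℝ)| ≤ C * (p : ℝ) ^ b

/-- U4: the numbers in an interval, `p = 2`. -/
def U4 : Prop := ∃ C : ℝ, 0 < C ∧ ∀ (p : ℕ) [Fact p.Prime], p = 2 → ∀ (b : ℕ) (A lo hi : ℤ),
  0 < b → lo ≤ hi → hi - lo ≤ 9 * (p : ℤ) ^ (2 * b) →
  |({n : ℤ | lo ≤ n ∧ n ≤ hi ∧ ¬ (p : ℤ) ∣ n ∧ NonSq p (A ^ 2 - 4 * n)}.ncard : ℝ) -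
    kap p A * ((hi - lo : ℤ) : ℝ)| ≤ C * (p : ℝ) ^ b

/-- U5: the number of the good parameters. -/
def U5 : Prop := ∃ C : ℝ, 0 < C ∧ ∀ (p : ℕ) [Fact p.Prime] (b : ℕ), 0 < b →
  {x : ℤ × ℤ | Reg ((p : ℤ) ^ b) x.1 x.2 ∧ ¬ (p : ℤ) ∣ x.2 ∧
    NonSq p (x.1 ^ 2 - 4 * x.2)}.Finite ∧
  |({x : ℤ × ℤ | Reg ((p : ℤ) ^ b) x.1 x.2 ∧ ¬ (p : ℤ) ∣ x.2 ∧
    NonSq p (x.1 ^ 2 - 4 * x.2)}.ncard : ℝ) - 128 / 15 * kbar p * ((p : ℝ) ^ b) ^ 3| ≤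
    C * ((p : ℝ) ^ b) ^ 2

/-- U6: the condition of Honda and Tate. -/
def U6 : Prop := ∀ (p : ℕ) [Fact p.Prime] (b : ℕ) (t A n : ℤ), 0 < b →
  (t = (p : ℤ) ^ b ∨ t = -(p : ℤ) ^ b) → Reg t A n → ¬ (p : ℤ) ∣ n → NonSq p (A ^ 2 - 4 * n) →
  Irreducible (F t A n) → HondaTate p (2 * b) (F t A n)

/-- U7: a consequence of the condition of Honda and Tate. -/
def U7 : Prop := ∀ (p : ℕ) [Fact p.Prime] (b : ℕ) (t A n : ℤ), 0 < b →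
  (t = (p : ℤ) ^ b ∨ t = -(p : ℤ) ^ b) → HondaTate p (2 * b) (F t A n) → NonSq p (A ^ 2 - 4 * n)

/-- U8: another one. -/
def U8 : Prop := ∀ (p : ℕ) [Fact p.Prime] (b : ℕ) (t A n : ℤ), 0 < b →
  (t = (p : ℤ) ^ b ∨ t = -(p : ℤ) ^ b) → NonSq p (A ^ 2 - 4 * n) →
  HondaTate p (2 * b) (F t A n) → (p : ℤ) ∣ n → (p : ℤ) ^ (2 * b) ∣ n

/-- U9: few divisible ones. -/
def U9 : Prop := ∃ C : ℝ, 0 < C ∧ ∀ (s : ℕ) (t : ℤ), 0 < s → (t = s ∨ t = -s) →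
  {x : ℤ × ℤ | Reg t x.1 x.2 ∧ (s : ℤ) ^ 2 ∣ x.2}.Finite ∧
  ({x : ℤ × ℤ | Reg t x.1 x.2 ∧ (s : ℤ) ^ 2 ∣ x.2}.ncard : ℝ) ≤ C * (s : ℝ) ^ 2

end Pool.Agent.H857.TF
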