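import Pool.Agent.H857.TF.Core

/-!
# Abelian threefolds with exotic Tate classes: the statements for the fields with a nonsquare number of
elements
-/

set_option autoImplicit false

namespace Pool.Agent.H857.TF

open Module Polynomial Pool.Agent.W521.Descent Pool.Agent.W521.Density Pool.Agent.W521.Count
  Pool.Agent.X297.UB Pool.Agent.H857.PB Pool.Agent.H857.PA Pool.Agent.H857.HK Pool.Agent.H857.EF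
  Pool.Agent.H857.WT Pool.Agent.H857.SG Pool.Agent.H857.PD

/-- The product of `X ^ 3 + α X ^ 2 + c √-p ᾱ X + c ^ 3 p √-p` and its conjugate, where
`α = (A + B √-p) / 2` and `n = α ᾱ`. -/
noncomputable def G (c p A B n : ℤ) : ℤ[X] :=
  X ^ 6 + C A * X ^ 5 + C (n + c * p * B) * X ^ 4 + C (c * p * A * B) * X ^ 3 +
    C (c ^ 2 * p * (n + c * p * B)) * X ^ 2 + C ((c ^ 2 * p) ^ 2 * A) * X + C ((c ^ 2 * p) ^ 3)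

/-- The region of the parameters. -/
def RegN (c p A B : ℤ) : Prop :=
  A ^ 4 + 2 * p * A ^ 2 * (B ^ 2 - 24 * B * c + 36 * c ^ 2) ≤
    p ^ 2 * (2 * c - B) * (B + 6 * c) ^ 3

/-- `x` is a root of the real polynomial `H` with `G = X ^ 3 H (X + c ^ 2 p / X)`. -/
def RtN (c p A B n x : ℤ) : Prop :=
  x ^ 3 + A * x ^ 2 + (n + c * p * B - 3 * c ^ 2 * p) * x + A * (c * p * B - 2 * c ^ 2 * p) = 0

/-- N1: the polynomials of odd Weil type over fields with a nonsquare number of elements. -/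
def N1 : Prop := ∀ (p : ℕ) [Fact p.Prime] (b : ℕ) (f : ℤ[X]), 5 ≤ p →
  f ∈ weilPolys (p ^ (2 * b + 1)) 3 → OfOddWeilType (p ^ (2 * b + 1)) 3 f →
  ∃ A B n : ℤ, 4 * n = A ^ 2 + p * B ^ 2 ∧ f = G ((p : ℤ) ^ b) p A B n

/-- N2: the Weil polynomials among the `G c p A B n`. -/
def N2 : Prop := ∀ (c p : ℕ) (A B n : ℤ), 0 < c → 0 < p → 4 * n = A ^ 2 + p * B ^ 2 →
  (G c p A B n ∈ weilPolys (c ^ 2 * p) 3 ↔ RegN c p A B)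

/-- N3: a consequence of the integrality of the Newton polygon. -/
def N3 : Prop := ∀ (p : ℕ) [Fact p.Prime] (b : ℕ) (A B n : ℤ), p ≠ 2 →
  4 * n = A ^ 2 + p * B ^ 2 → G ((p : ℤ) ^ b) p A B n ∈ newtonWeil p (2 * b + 1) 3 →
  (p : ℤ) ∣ A → (p : ℤ) ^ (2 * b + 1) ∣ n

/-- N4a: almost ordinary Weil polynomials over fields with a nonsquare number of elements. -/
def N4a : Prop := ∀ (p : ℕ) [Fact p.Prime] (b g : ℕ) (f : ℤ[X]), 2 ≤ g →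
  f ∈ weilPolys (p ^ (2 * b + 1)) g → (p : ℤ) ^ (b + 1) ∣ f.coeff g →
  ¬ (p : ℤ) ∣ f.coeff (g + 1) →
  slopeCount p f ((p : ℝ) ^ (2 * b + 1)) 0 = g - 1 ∧
  slopeCount p f ((p : ℝ) ^ (2 * b + 1)) (1 / 2) = 2 ∧
  slopeCount p f ((p : ℝ) ^ (2 * b + 1)) 1 = g - 1 ∧ f ∈ newtonWeil p (2 * b + 1) g

/-- N4: integral Newton polygons. -/
def N4 : Prop := ∀ (p : ℕ) [Fact p.Prime] (b : ℕ) (A B n : ℤ), p ≠ 2 →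
  4 * n = A ^ 2 + p * B ^ 2 → G ((p : ℤ) ^ b) p A B n ∈ weilPolys (p ^ (2 * b + 1)) 3 →
  ¬ (p : ℤ) ∣ A → G ((p : ℤ) ^ b) p A B n ∈ newtonWeil p (2 * b + 1) 3 ∧
  ∃ z : ℂ, aeval z (G ((p : ℤ) ^ b) p A B n) = 0 ∧
    ∀ M : ℕ, 0 < M → z ^ (2 * M) ≠ ((p ^ (2 * b + 1) : ℕ) : ℂ) ^ M

/-- N5a: there are no integral roots. -/
def N5a : Prop := ∀ (p : ℕ) [Fact p.Prime] (b : ℕ) (A B n : ℤ), 5 ≤ p →
  4 * n = A ^ 2 + p * B ^ 2 → ¬ (p : ℤ) ∣ A → B ≠ 2 * (p : ℤ) ^ b →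
  ∀ x : ℤ, ¬ RtN ((p : ℤ) ^ b) p A B n x

/-- N5b: irreducibility and exotic relations. -/
def N5b : Prop := ∀ (c p : ℕ) (A B n : ℤ), 0 < c → 0 < p → 1 < c ^ 2 * p →
  4 * n = A ^ 2 + p * B ^ 2 → G c p A B n ∈ weilPolys (c ^ 2 * p) 3 →
  (∀ x : ℤ, ¬ RtN c p A B n x) →
  (∃ z : ℂ, aeval z (G c p A B n) = 0 ∧
    ∀ M : ℕ, 0 < M → z ^ (2 * M) ≠ ((c ^ 2 * p : ℕ) : ℂ) ^ M) →
  Irreducible (G c p A B n) ∧ ExL (c ^ 2 * p) (G c p A B n)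

/-- N6: the condition of Honda and Tate. -/
def N6 : Prop := ∀ (p : ℕ) [Fact p.Prime] (b : ℕ) (A B n : ℤ), p ≠ 2 →
  4 * n = A ^ 2 + p * B ^ 2 → G ((p : ℤ) ^ b) p A B n ∈ weilPolys (p ^ (2 * b + 1)) 3 →
  ¬ (p : ℤ) ∣ A → Irreducible (G ((p : ℤ) ^ b) p A B n) →
  HondaTate p (2 * b + 1) (G ((p : ℤ) ^ b) p A B n)

/-- The upper boundary of the deltoid. -/
noncomputable def upf (x : ℝ) : ℝ :=
  Real.sqrt ((3 - Real.sqrt (3 - 2 * x)) ^ 3 * (Real.sqrt (3 - 2 * x) + 1)) / 2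

/-- The lower boundary of the upper half of the deltoid. -/
noncomputable def lowf (x : ℝ) : ℝ :=
  if x ≤ 1 then 0 else
    Real.sqrt ((1 - Real.sqrt (3 - 2 * x)) * (Real.sqrt (3 - 2 * x) + 3) ^ 3) / 2

/-- N7a: the sections of the region. -/
def N7a : Prop := ∀ (c p : ℕ) (A B : ℤ), 0 < c → 0 < p →
  (RegN c p A B ↔ -6 * (c : ℤ) ≤ B ∧ B ≤ 3 * c ∧
    lowf (B / (2 * c)) ≤ |(A : ℝ)| / (2 * c * Real.sqrt p) ∧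
    |(A : ℝ)| / (2 * c * Real.sqrt p) ≤ upf (B / (2 * c)))

/-- N7b: Riemann sums. -/
def N7b : Prop := ∃ C : ℝ, 0 < C ∧ ∀ (c m : ℕ), 0 < c → (m = 1 ∨ m = 2) →
  |∑ B ∈ Finset.Icc (-6 * (c : ℤ)) (3 * c) with (m : ℤ) ∣ B,
    2 * (upf (B / (2 * c)) - lowf (B / (2 * c))) - 4 * Real.pi * c / m| ≤ C

/-- N7c: the number of the good parameters. -/
def N7c : Prop := ∃ C : ℝ, 0 < C ∧ ∀ (p : ℕ) [Fact p.Prime] (b : ℕ), p ≠ 2 →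
  {x : ℤ × ℤ | 4 ∣ x.1 ^ 2 + p * x.2 ^ 2 ∧ RegN ((p : ℤ) ^ b) p x.1 x.2 ∧ ¬ (p : ℤ) ∣ x.1}.Finite ∧
  |({x : ℤ × ℤ | 4 ∣ x.1 ^ 2 + p * x.2 ^ 2 ∧ RegN ((p : ℤ) ^ b) p x.1 x.2 ∧
    ¬ (p : ℤ) ∣ x.1}.ncard : ℝ) - (if p % 4 = 3 then 4 else 2) * Real.pi * (1 - 1 / p) *
      ((p : ℝ) ^ b * ((p : ℝ) ^ b * Real.sqrt p))| ≤ C * ((p : ℝ) ^ b * Real.sqrt p)

/-- N8: few exceptional parameters. -/
def N8 : Prop := ∃ C : ℝ, 0 < C ∧ ∀ (p : ℕ) [Fact p.Prime] (b : ℕ),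
  {x : ℤ × ℤ | RegN ((p : ℤ) ^ b) p x.1 x.2 ∧ (x.2 = 2 * (p : ℤ) ^ b ∨
    ∃ n : ℤ, 4 * n = x.1 ^ 2 + p * x.2 ^ 2 ∧ (p : ℤ) ^ (2 * b + 1) ∣ n)}.Finite ∧
  ({x : ℤ × ℤ | RegN ((p : ℤ) ^ b) p x.1 x.2 ∧ (x.2 = 2 * (p : ℤ) ^ b ∨
    ∃ n : ℤ, 4 * n = x.1 ^ 2 + p * x.2 ^ 2 ∧ (p : ℤ) ^ (2 * b + 1) ∣ n)}.ncard : ℝ) ≤
    C * ((p : ℝ) ^ b * Real.sqrt p)

/-! ### Reducible polynomials -/

/-- N10s: the slopes. -/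
def N10s : Prop := ∀ (p : ℕ) [Fact p.Prime] (a : ℕ) (f : ℤ[X]), 0 < a → f ∈ newtonWeil p a 3 →
  (∀ y : PadicAlgCl p, aeval y f = 0 → ‖y‖ = 1 ∨ ‖y‖ ^ 2 = ((p : ℝ) ^ a)⁻¹ ∨
    ‖y‖ = ((p : ℝ) ^ a)⁻¹) ∨
  (∀ y : PadicAlgCl p, aeval y f = 0 → ‖y‖ ^ 3 = ((p : ℝ) ^ a)⁻¹ ∨ ‖y‖ ^ 3 = (((p : ℝ) ^ a)⁻¹) ^ 2)

/-- N10a: three linear factors. -/
def N10a : Prop := ∀ (p : ℕ) [Fact p.Prime] (a : ℕ) (f : ℤ[X]), 0 < a → f ∈ newtonWeil p a 3 →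
  (∃ x y z : Fin 1 → ℤ, f = wp (p ^ a) 1 x * wp (p ^ a) 1 y * wp (p ^ a) 1 z ∧
    wp (p ^ a) 1 x ∈ weilPolys (p ^ a) 1 ∧ wp (p ^ a) 1 y ∈ weilPolys (p ^ a) 1 ∧
    wp (p ^ a) 1 z ∈ weilPolys (p ^ a) 1) → ¬ ExL (p ^ a) f

/-- N10b: a linear and an irreducible quadratic factor. -/
def N10b : Prop := ∀ (p : ℕ) [Fact p.Prime] (b : ℕ) (f : ℤ[X]), f ∈ newtonWeil p (2 * b + 1) 3 →
  (∃ (y : Fin 1 → ℤ) (z : Fin 2 → ℤ),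
    f = wp (p ^ (2 * b + 1)) 1 y * wp (p ^ (2 * b + 1)) 2 z ∧
    wp (p ^ (2 * b + 1)) 1 y ∈ weilPolys (p ^ (2 * b + 1)) 1 ∧
    wp (p ^ (2 * b + 1)) 2 z ∈ weilPolys (p ^ (2 * b + 1)) 2 ∧ Irreducible (mkPoly 2 z)) →
  ¬ ExL (p ^ (2 * b + 1)) f

/-- N10: the reducible polynomials. -/
def N10 : Prop := ∀ (p : ℕ) [Fact p.Prime] (b : ℕ) (f : ℤ[X]), f ∈ newtonWeil p (2 * b + 1) 3 →
  ¬ Irreducible f → ¬ ExL (p ^ (2 * b + 1)) f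

end Pool.Agent.H857.TF
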