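import Pool.Agent.H857.TF.Core3

/-!
# Lifts of the exceptional abelian varieties to characteristic zero: the statements
-/

set_option autoImplicit false

namespace Pool.Agent.H857.TF

open Module Polynomial Pool.Agent.W521.Descent Pool.Agent.W521.Density Pool.Agent.W521.Count
  Pool.Agent.X297.UB Pool.Agent.H857.PB Pool.Agent.H857.PA Pool.Agent.H857.HK Pool.Agent.H857.EF
  Pool.Agent.H857.WT Pool.Agent.H857.SG Pool.Agent.H857.PD

/-- V1: the existence of a CM type with given numbers of elements in the orbits. -/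
def V1 : Prop := ∀ (R Λ : Type) [Fintype R] [DecidableEq R] [DecidableEq Λ] (ι : R → R)
  (L : R → Λ) (j : Λ → Λ) (k : Λ → ℕ), (∀ x, ι (ι x) = x) → (∀ x, ι x ≠ x) →
  (∀ x, L (ι x) = j (L x)) →
  (∀ x, k (L x) + k (j (L x)) = (Finset.univ.filter fun y => L y = L x).card) →
  ∃ Φ : Finset R, (∀ x, ι x ∈ Φ ↔ x ∉ Φ) ∧ ∀ x, (Φ.filter fun y => L y = L x).card = k (L x)

/-- V2: the prime number does not split in the imaginary quadratic field. -/
def V2 : Prop := ∀ (p : ℕ) [Fact p.Prime] (a g D : ℕ) (f : ℤ[X]) (h : ℂ[X])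
  (ψ : ℂ →+* PadicAlgCl p), 0 < a → Odd g → f.Monic → HondaTate p a f → h.Monic →
  (∀ j, h.coeff j ∈ quadField D) →
  f.map (Int.castRingHom ℂ) = h * h.map (starRingEnd ℂ) →
  (∃ N : ℕ, 0 < N ∧ h.coeff 0 ^ (2 * N) = (((p ^ a : ℕ) : ℂ) ^ g) ^ N) →
  ∃ σ : PadicAlgCl p ≃ₐ[ℚ_[p]] PadicAlgCl p,
    ∀ j, σ (ψ (h.coeff j)) = ψ (starRingEnd ℂ (h.coeff j))

/-- V3: the slopes and the orbits of the roots. -/
def V3 : Prop := ∀ (p : ℕ) [Fact p.Prime] (a g : ℕ) (f : ℤ[X]), 0 < a → 2 ≤ g →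
  f ∈ weilPolys (p ^ a) g → Irreducible f → HondaTate p a f →
  ∃ k : ℚ_[p][X] → ℕ, ∀ y : PadicAlgCl p, aeval y f = 0 →
    aeval ((p : PadicAlgCl p) ^ a / y) f = 0 ∧ (p : PadicAlgCl p) ^ a / y ≠ y ∧ y ≠ 0 ∧
    ‖(minpoly ℚ_[p] y).coeff 0‖ = (((p : ℝ) ^ a)⁻¹) ^ k (minpoly ℚ_[p] y) ∧
    k (minpoly ℚ_[p] y) + k (minpoly ℚ_[p] ((p : PadicAlgCl p) ^ a / y)) =
      {z : PadicAlgCl p | aeval z f = 0 ∧ minpoly ℚ_[p] z = minpoly ℚ_[p] y}.ncard

open Classical in
/-- `Φ` is a set of roots of `f` in the algebraic closure of the field of `p`-adic numbers, or of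
embeddings of the field `E = ℚ[X] / (f)`, which contains exactly one of the conjugate roots `z`, `q / z`
(a CM type of `E`), such that for each irreducible factor `h` of `f` over the field of `p`-adic
numbers the valuation of `h (0)` (the one with the value `1` at `q`) is the number of the roots of `h`
in `Φ`. By the formula of Shimura and Taniyama and the theorem of Honda the abelian varieties
with complex multiplication by `E` of the type `Φ` are lifts of the abelian variety with the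
polynomial `f` to characteristic zero, up to isogeny and finite extension of the field. -/
def IsLiftType (p : ℕ) [Fact p.Prime] (a : ℕ) (f : ℤ[X]) (Φ : Finset (PadicAlgCl p)) : Prop :=
  (∀ z ∈ Φ, aeval z f = 0) ∧
  (∀ z : PadicAlgCl p, aeval z f = 0 → ((p : PadicAlgCl p) ^ a / z ∈ Φ ↔ z ∉ Φ)) ∧
  ∀ h : ℚ_[p][X], h.Monic → Irreducible h → h ∣ f.map (Int.castRingHom ℚ_[p]) →
    ‖h.coeff 0‖ = (((p : ℝ) ^ a)⁻¹) ^ (Φ.filter fun z => aeval z h = 0).card

open Classical in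
/-- V4: there are two lifts whose product is of Weil type. -/
def V4 : Prop := ∀ (p : ℕ) [Fact p.Prime] (a g D : ℕ) (f : ℤ[X]) (h : ℂ[X])
  (ψ : ℂ →+* PadicAlgCl p), 0 < a → 2 ≤ g → Odd g → f ∈ weilPolys (p ^ a) g → Irreducible f →
  HondaTate p a f → h.Monic → (∀ j, h.coeff j ∈ quadField D) →
  f.map (Int.castRingHom ℂ) = h * h.map (starRingEnd ℂ) →
  (∃ N : ℕ, 0 < N ∧ h.coeff 0 ^ (2 * N) = (((p ^ a : ℕ) : ℂ) ^ g) ^ N) →
  ∃ Φ₁ Φ₂ : Finset (PadicAlgCl p), IsLiftType p a f Φ₁ ∧ IsLiftType p a f Φ₂ ∧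
    (Φ₁.filter fun z => eval z (h.map ψ) = 0).card +
      (Φ₂.filter fun z => eval z (h.map ψ) = 0).card = g

end Pool.Agent.H857.TF
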