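import Pool.Agent.H857.TF.Asm
import Pool.Agent.H857.PD.Full
import Pool.Agent.H857.TF.P.T1a
import Pool.Agent.H857.TF.P.T1
import Pool.Agent.H857.TF.P.T2a
import Pool.Agent.H857.TF.P.T2b
import Pool.Agent.H857.TF.P.T2
import Pool.Agent.H857.TF.P.T3
import Pool.Agent.H857.TF.P.T4a
import Pool.Agent.H857.TF.P.T4b
import Pool.Agent.H857.TF.P.T4c
import Pool.Agent.H857.TF.P.T5
import Pool.Agent.H857.TF.P.T6
import Pool.Agent.H857.TF.P.T7
import Pool.Agent.H857.TF.P.T8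
import Pool.Agent.H857.TF.P.T9
import Pool.Agent.H857.TF.P.T10
import Pool.Agent.H857.TF.P.R1
import Pool.Agent.H857.TF.P.R2
import Pool.Agent.H857.TF.P.R3m
import Pool.Agent.H857.TF.P.R3
import Pool.Agent.H857.TF.P.R5
import Pool.Agent.H857.TF.P.R6
import Pool.Agent.H857.TF.P.R4

/-!
# Abelian threefolds with exotic Tate classes: the statements together
-/

set_option autoImplicit false

namespace Pool.Agent.H857.TF

open Polynomial Pool.Agent.W521.Descent Pool.Agent.H857.PB Pool.Agent.H857.PA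
  Pool.Agent.H857.HK Pool.Agent.H857.EF
  Pool.Agent.H857.WT Pool.Agent.H857.SG Pool.Agent.H857.PD Pool.Agent.X297.UB

theorem all_t1 : T1 := H729.TFT1.t1 H42.TF1a.t1a

theorem all_t2 : T2 := H233.TFt2.t2 H345.TFT2a.t2a H79.TFt2b.t2b

theorem all_t5 : T5 := H894.TFT5.t5 all_t1 H494.PDO3.o3n' H236.PDo7.o7

theorem all_t7 : T7 := H795.TFt7.t7 all_t1 (H628.PD.o17a H494.PDO3.o3r)

theorem all_t10 : T10 := H878.TF10.t10 all_t1

theorem all_r3 : R3 := H409.TFR3.r3 H894.EF.s7 H176.TFr3m.r3m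

theorem all_r4 : R4 := H627.TFR4.r4 H277.PDp8a.p8a
  (H597.TFr5.r5 H233.EF.s3 H894.EF.s7)
  (H874.TFr6.r6 H233.EF.s3 H120.TFr1.r1 H308.TFR2.r2 H176.TFr3m.r3m all_r3 H79.SGB7a.b7a)

theorem structure3 {q : ℕ} (hq : 1 < q) {f : ℤ[X]} (hf : f ∈ weilPolys q 3)
    (hi : Irreducible f) (he : HasExotic q f) : OfOddWeilType q 3 f :=
  (exotic_structure Pool.Agent.H738.PDP1.p1 all_p3 Pool.Agent.H795.PD4.p4
    Pool.Agent.H548.SGB5.b5 Pool.Agent.H233.EF.s3 3 Nat.prime_three le_rfl hq hf hi he).1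

/-- The asymptotic formula. -/
theorem asymptotic : ∃ C : ℝ, 0 < C ∧ ∀ (p : ℕ) [Fact p.Prime] (b : ℕ), 0 < b →
    |((Ex p b).ncard : ℝ) - 128 / 15 * ((p : ℝ) ^ b) ^ 3| ≤ C * (((p : ℝ) ^ b) ^ 3 / p) := by
  have hc := counts all_t2 H332.TF.t3
  obtain ⟨C₁, hC₁, hu⟩ := upperT (fun hq _ hf hi he => structure3 hq hf hi he) all_t1
    H675.TFT4a.t4a H142.TFt4b.t4b H935.TFt8.t8 hc
  obtain ⟨C₂, hC₂, hl⟩ := lowerT all_t1 all_t5 H903.TFT6.t6' all_t7 H975.TFt9.t9 all_t10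
    H643.EF.s18 hc
  obtain ⟨C₃, hC₃, h3⟩ := upper Pool.Agent.H790.PDp17.p17 all_p18 1 le_rfl
  refine ⟨C₁ + C₂ + 2 * (C₃ + 128 / 15), by positivity, fun p _ b hb => ?_⟩
  have hp : p.Prime := Fact.out
  have hpR : (0 : ℝ) < p := by exact_mod_cast hp.pos
  have hpos : 0 ≤ ((p : ℝ) ^ b) ^ 3 / p := by positivity
  by_cases hp2 : p = 2
  · have hq1 : 1 < p ^ (2 * b) := Nat.one_lt_pow (by omega) hp.one_lt
    have hsub : Ex p b ⊆ {f ∈ newtonWeil p (2 * b) (2 * 1 + 1) |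
        OfOddWeilType (p ^ (2 * b)) (2 * 1 + 1) f} := by
      rintro f ⟨hf, hi, -, he⟩
      exact ⟨hf, structure3 hq1 hf.1 hi he⟩
    have h1 := h3 p (2 * b) (by omega)
    have h2 : ((Ex p b).ncard : ℝ) ≤ ({f ∈ newtonWeil p (2 * b) (2 * 1 + 1) |
        OfOddWeilType (p ^ (2 * b)) (2 * 1 + 1) f}.ncard : ℝ) := by
      exact_mod_cast Set.ncard_le_ncard hsub (newtonWeil_finite.subset fun f hf => hf.1)
    have h4 : Real.sqrt ((p : ℝ) ^ (2 * b)) ^ oddOrder (2 * 1 + 1) = ((p : ℝ) ^ b) ^ 3 := by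
      rw [mul_comm 2 b, pow_mul, Real.sqrt_sq (by positivity)]
      rfl
    rw [h4] at h1
    have h5 : ((p : ℝ) ^ b) ^ 3 = 2 * (((p : ℝ) ^ b) ^ 3 / p) := by
      rw [hp2]
      push_cast
      ring
    have h6 : (0 : ℝ) ≤ ((Ex p b).ncard : ℝ) := Nat.cast_nonneg _
    have h7 : (0 : ℝ) ≤ ((p : ℝ) ^ b) ^ 3 := by positivity
    rw [abs_le]
    constructor
    · nlinarith [mul_nonneg hC₁.le hpos, mul_nonneg hC₂.le hpos, mul_nonneg hC₃.le hpos]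
    · nlinarith [mul_nonneg hC₁.le hpos, mul_nonneg hC₂.le hpos, mul_nonneg hC₃.le hpos]
  · have h1 := hu p b hb hp2
    have h2 := hl p b hb hp2
    rw [abs_le]
    constructor
    · nlinarith [mul_nonneg hC₁.le hpos, mul_nonneg hC₂.le hpos, mul_nonneg hC₃.le hpos]
    · nlinarith [mul_nonneg hC₁.le hpos, mul_nonneg hC₂.le hpos, mul_nonneg hC₃.le hpos]

/-- The bounds for the reducible polynomials and for nonsquare `q`. -/
theorem bounds : ∃ C : ℝ, 0 < C ∧ ∀ (p : ℕ) [Fact p.Prime] (a : ℕ), 0 < a →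
    ({f ∈ newtonWeil p a 3 | ¬ Irreducible f ∧ HasExotic (p ^ a) f}.ncard : ℝ) ≤
      C * (p : ℝ) ^ a ∧
    (¬ Even a → ({f ∈ newtonWeil p a 3 | HasExotic (p ^ a) f}.ncard : ℝ) ≤ C * (p : ℝ) ^ a) := by
  obtain ⟨C₁, hC₁, h1⟩ := all_r4
  obtain ⟨C₂, hC₂, h2⟩ := Pool.Agent.H675.TFT4a.t4a
  refine ⟨C₁ + C₂, by positivity, fun p _ a ha => ?_⟩
  have hp : p.Prime := Fact.out
  have hq1 : 1 < p ^ a := Nat.one_lt_pow ha.ne' hp.one_lt
  have hpos : (0 : ℝ) ≤ (p : ℝ) ^ a := by positivity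
  have hred : ({f ∈ newtonWeil p a 3 | ¬ Irreducible f ∧ HasExotic (p ^ a) f}.ncard : ℝ) ≤
      C₁ * (p : ℝ) ^ a := by
    refine le_trans ?_ (h1 p a ha)
    have hsub : {f ∈ newtonWeil p a 3 | ¬ Irreducible f ∧ HasExotic (p ^ a) f} ⊆
        {f ∈ newtonWeil p a 3 | ¬ Irreducible f ∧ ExL (p ^ a) f} := by
      rintro f ⟨hf, hi, he⟩
      exact ⟨hf, hi, Pool.Agent.H548.SGB5.b5 (p ^ a) 3 hq1 f hf.1 he⟩
    exact_mod_cast Set.ncard_le_ncard hsub (newtonWeil_finite.subset fun f hf => hf.1)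
  refine ⟨hred.trans (mul_le_mul_of_nonneg_right (by linarith) hpos), fun hodd => ?_⟩
  obtain ⟨hfin, h2⟩ := h2 (p ^ a) (by positivity)
  have hns : ¬ IsSquare (p ^ a) := by
    rintro ⟨r, hr⟩
    apply hodd
    have h3 := congrArg (fun n => n.factorization p) hr
    have hr0 : r ≠ 0 := by
      rintro rfl
      simp at hr
      exact hp.ne_zero hr.1
    simp only [Nat.factorization_pow, Nat.factorization_mul hr0 hr0, Finsupp.smul_apply,
      Finsupp.add_apply, hp.factorization_self, smul_eq_mul, mul_one] at h3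
    exact ⟨_, h3⟩
  have hsub : {f ∈ newtonWeil p a 3 | HasExotic (p ^ a) f} ⊆
      {f ∈ newtonWeil p a 3 | ¬ Irreducible f ∧ HasExotic (p ^ a) f} ∪
      {f ∈ weilPolys (p ^ a) 3 | OddNR (p ^ a) f} := by
    rintro f ⟨hf, he⟩
    by_cases hi : Irreducible f
    · exact Or.inr ⟨hf.1, Pool.Agent.H383.TFt4c.t4c (p ^ a) f (by positivity) hns
        (structure3 hq1 hf.1 hi he)⟩
    · exact Or.inl ⟨hf, hi, he⟩
  have h4 := (Set.ncard_le_ncard hsub ((newtonWeil_finite.subset fun f hf => hf.1).union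
    hfin)).trans (Set.ncard_union_le _ _)
  have h5 : ({f ∈ newtonWeil p a 3 | HasExotic (p ^ a) f}.ncard : ℝ) ≤
      ({f ∈ newtonWeil p a 3 | ¬ Irreducible f ∧ HasExotic (p ^ a) f}.ncard : ℝ) +
      ({f ∈ weilPolys (p ^ a) 3 | OddNR (p ^ a) f}.ncard : ℝ) := by exact_mod_cast h4
  have h6 : ((p ^ a : ℕ) : ℝ) = (p : ℝ) ^ a := by push_cast; rfl
  rw [h6] at h2
  linarith

end Pool.Agent.H857.TF
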