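import Pool.Agent.H857.TF.Full
import Pool.Agent.H857.TF.Asm2
import Pool.Agent.H857.TF.P.U1
import Pool.Agent.H857.TF.P.U2
import Pool.Agent.H857.TF.P.U3
import Pool.Agent.H857.TF.P.U4
import Pool.Agent.H857.TF.P.U5
import Pool.Agent.H857.TF.P.U6
import Pool.Agent.H857.TF.P.U7
import Pool.Agent.H857.TF.P.U8
import Pool.Agent.H857.TF.P.U9

/-!
# Abelian threefolds with exotic Tate classes: the asymptotic formula with the exact main term
-/

set_option autoImplicit false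

namespace Pool.Agent.H857.TF

open Polynomial Pool.Agent.W521.Descent Pool.Agent.H857.PB Pool.Agent.H857.PA
  Pool.Agent.H857.HK Pool.Agent.H857.EF
  Pool.Agent.H857.WT Pool.Agent.H857.SG Pool.Agent.H857.PD Pool.Agent.X297.UB

theorem all_u5 : U5 := H972.TF.u5 u1 H118.TFu2.u2 H864.TFU3.u3 H618.TFU4.u4

theorem all_u6 : U6 := H897.TFu6.u6 all_t1 (H628.PD.o17a H494.PDO3.o3r)

/-- The asymptotic formula with the exact main term. -/
theorem asymptotic2 : ∃ C : ℝ, 0 < C ∧ ∀ (p : ℕ) [Fact p.Prime] (b : ℕ), 0 < b →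
    |((Ex p b).ncard : ℝ) - 128 / 15 * (((p : ℝ) - 1) * ((p : ℝ) ^ 2 + 3 * p + 1) /
      ((p : ℝ) ^ 2 * ((p : ℝ) + 1))) * ((p : ℝ) ^ b) ^ 3| ≤ C * ((p : ℝ) ^ b) ^ 2 := by
  obtain ⟨C₁, hC₁, hu⟩ := upper2 (fun hq _ hf hi he => structure3 hq hf hi he) all_t1
    H675.TFT4a.t4a H142.TFt4b.t4b H382.TFu7.u7 H120.TFU.u8 H383.TFu9.u9 all_u5
  obtain ⟨C₂, hC₂, hl⟩ := lower2 all_t1 all_t5 H903.TFT6.t6' all_u6 H975.TFt9.t9 all_t10
    H643.EF.s18 all_u5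
  refine ⟨C₁ + C₂, by positivity, fun p _ b hb => ?_⟩
  have hp : p.Prime := Fact.out
  have hpR : (0 : ℝ) < p := by exact_mod_cast hp.pos
  have h1 := hu p b hb
  have h2 := hl p b hb
  have e1 : 2 * kbar p = ((p : ℝ) - 1) * ((p : ℝ) ^ 2 + 3 * p + 1) /
      ((p : ℝ) ^ 2 * ((p : ℝ) + 1)) := by
    unfold kbar
    field_simp
  rw [e1] at h1 h2
  have hpos : (0 : ℝ) ≤ ((p : ℝ) ^ b) ^ 2 := by positivity
  rw [abs_le]
  constructor
  · nlinarith [mul_nonneg hC₁.le hpos, mul_nonneg hC₂.le hpos]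
  · nlinarith [mul_nonneg hC₁.le hpos, mul_nonneg hC₂.le hpos]

end Pool.Agent.H857.TF
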