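import Pool.Agent.H857.TF.Full2
import Pool.Agent.H857.TF.Asm3
import Pool.Agent.H857.TF.P.N1
import Pool.Agent.H857.TF.P.N2
import Pool.Agent.H857.TF.P.N3
import Pool.Agent.H857.TF.P.N4
import Pool.Agent.H857.TF.P.N4a
import Pool.Agent.H857.TF.P.N5a
import Pool.Agent.H857.TF.P.N5b
import Pool.Agent.H857.TF.P.N6
import Pool.Agent.H857.TF.P.N7a
import Pool.Agent.H857.TF.P.N7b
import Pool.Agent.H857.TF.P.N7c
import Pool.Agent.H857.TF.P.N8
import Pool.Agent.H857.TF.P.N10s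
import Pool.Agent.H857.TF.P.N10a
import Pool.Agent.H857.TF.P.N10b
import Pool.Agent.H857.TF.P.N10

/-!
# Abelian threefolds with exotic Tate classes over fields with a nonsquare number of elements
-/

set_option autoImplicit false

namespace Pool.Agent.H857.TF

open Polynomial Pool.Agent.W521.Descent Pool.Agent.H857.PB Pool.Agent.H857.PA
  Pool.Agent.H857.HK Pool.Agent.H857.EF
  Pool.Agent.H857.WT Pool.Agent.H857.SG Pool.Agent.H857.PD Pool.Agent.X297.UB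

/-- The asymptotic formula if the number of elements is not a square. -/
theorem asymptoticN_of (n1 : N1) (n2 : N2) (n3 : N3) (n4 : N4) (n5a : N5a) (n5b : N5b) (n6 : N6)
    (n7 : N7c) (n8 : N8) (n10 : N10) :
    ∃ C : ℝ, 0 < C ∧ ∀ (p : ℕ) [Fact p.Prime] (a : ℕ), ¬ Even a →
      (∀ f ∈ newtonWeil p a 3, HasExotic (p ^ a) f → Irreducible f) ∧
      (5 ≤ p → ∀ A : Set ℤ[X], A ⊆ newtonWeil p a 3 →
        (∀ f ∈ newtonWeil p a 3, Irreducible f → (f ∈ A ↔ HondaTate p a f)) →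
        |({f ∈ A | HasExotic (p ^ a) f}.ncard : ℝ) - (if p % 4 = 3 then 4 else 2) * Real.pi *
          (1 - 1 / p) * ((p : ℝ) ^ a / Real.sqrt p)| ≤ C * Real.sqrt ((p : ℝ) ^ a)) := by
  obtain ⟨C, hC, h⟩ := countN (fun hq _ hf hi he => structure3 hq hf hi he) n1 n2 n3 n4 n5a n5b n6
    n7 n8 H643.EF.s18
  refine ⟨C, hC, fun p _ a ha => ?_⟩
  have hp : p.Prime := Fact.out
  have hpR : (0 : ℝ) < p := by exact_mod_cast hp.pos
  obtain ⟨b, rfl⟩ := Nat.not_even_iff_odd.1 ha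
  have hq1 : 1 < p ^ (2 * b + 1) := Nat.one_lt_pow (by omega) hp.one_lt
  have hirr : ∀ f ∈ newtonWeil p (2 * b + 1) 3, HasExotic (p ^ (2 * b + 1)) f → Irreducible f := by
    intro f hf he
    by_contra hi
    exact n10 p b f hf hi (Pool.Agent.H548.SGB5.b5 (p ^ (2 * b + 1)) 3 hq1 f hf.1 he)
  refine ⟨hirr, fun hp5 A hA hA' => ?_⟩
  have hset : {f ∈ A | HasExotic (p ^ (2 * b + 1)) f} = ExN p b := by
    ext f
    constructor
    · rintro ⟨hf, he⟩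
      have hfW := hA hf
      have hi := hirr f hfW he
      exact ⟨hfW, hi, (hA' f hfW hi).1 hf, he⟩
    · rintro ⟨hf, hi, hHT, he⟩
      exact ⟨(hA' f hf hi).2 hHT, he⟩
  have h1 := h p b hp5
  have hs : Real.sqrt ((p : ℝ) ^ (2 * b + 1)) = (p : ℝ) ^ b * Real.sqrt p := by
    rw [pow_succ, mul_comm 2 b, pow_mul, Real.sqrt_mul (by positivity), Real.sqrt_sq (by positivity)]
  have hd : (p : ℝ) ^ (2 * b + 1) / Real.sqrt p = (p : ℝ) ^ b * ((p : ℝ) ^ b * Real.sqrt p) := by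
    rw [div_eq_iff (Real.sqrt_pos.2 hpR).ne']
    have h2 : Real.sqrt p * Real.sqrt p = p := Real.mul_self_sqrt hpR.le
    linear_combination (-((p : ℝ) ^ b) ^ 2) * h2
  rw [hset, hs, hd]
  exact h1

/-- The asymptotic formula if the number of elements is not a square. -/
theorem asymptoticN :
    ∃ C : ℝ, 0 < C ∧ ∀ (p : ℕ) [Fact p.Prime] (a : ℕ), ¬ Even a →
      (∀ f ∈ newtonWeil p a 3, HasExotic (p ^ a) f → Irreducible f) ∧
      (5 ≤ p → ∀ A : Set ℤ[X], A ⊆ newtonWeil p a 3 →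
        (∀ f ∈ newtonWeil p a 3, Irreducible f → (f ∈ A ↔ HondaTate p a f)) →
        |({f ∈ A | HasExotic (p ^ a) f}.ncard : ℝ) - (if p % 4 = 3 then 4 else 2) * Real.pi *
          (1 - 1 / p) * ((p : ℝ) ^ a / Real.sqrt p)| ≤ C * Real.sqrt ((p : ℝ) ^ a)) :=
  asymptoticN_of Pool.Agent.H4.TFN1.n1 Pool.Agent.H370.TFn2.n2 Pool.Agent.H895.TFN3.n3
    (Pool.Agent.H348.TFN4.n4 Pool.Agent.H860.TFN4a.n4a Pool.Agent.H236.PDo7.o7)
    Pool.Agent.H947.TFN5a.n5a Pool.Agent.H806.TFN5b.n5b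
    (Pool.Agent.H644.TF.n6 Pool.Agent.H860.TFN4a.n4a)
    (Pool.Agent.H924.TFN7c.n7c Pool.Agent.H36.TF.n7a Pool.Agent.H873.TFN7b.n7b)
    Pool.Agent.H661.TFn8.n8
    (Pool.Agent.H152.TFN10.n10 Pool.Agent.H277.PDp8a.p8a
      (Pool.Agent.H80.TFn10a.n10a Pool.Agent.H706.TFN10s.n10s)
      (Pool.Agent.H308.TFn10b.n10b Pool.Agent.H706.TFN10s.n10s Pool.Agent.H120.TFr1.r1
        Pool.Agent.H308.TFR2.r2 Pool.Agent.H233.EF.s3 Pool.Agent.H79.SGB7a.b7a))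

end Pool.Agent.H857.TF
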