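import Pool.Agent.H857.TF.Full3
import Pool.Agent.H857.TF.Core4
import Pool.Agent.H857.TF.P.V1
import Pool.Agent.H857.TF.P.V2
import Pool.Agent.H857.TF.P.V3
import Pool.Agent.H857.TF.P.V4

/-!
# Lifts of the exceptional abelian varieties
-/

set_option autoImplicit false

namespace Pool.Agent.H857.TF

/-- The exceptional abelian varieties with irreducible characteristic polynomials have two lifts whose
product is of Weil type. -/
theorem lifts : V4 :=
  Pool.Agent.H154.TF.v4 Pool.Agent.H224.TF.v1 Pool.Agent.H383.TF4.v2 Pool.Agent.H163.TFV3.v3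

end Pool.Agent.H857.TF
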